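import Pool.Agent.Lib.MP_57313b_al.Rigid

/-!
Subrings with essential socle, and subrings with small simple modules.
-/

namespace Pool.Agent.Lib.MP_57313b_al

open Cardinal

variable {R : Type} [Ring R] {A : ℕ → Subring R} {B : Subring R}

/-- every nonzero one-sided ideal of `B` contains a minimal one -/
def At (B : Subring R) : Prop := ∀ a ∈ B, a ≠ 0 → ∃ b ∈ B, b * a ≠ 0 ∧ Sim B (b * a)

/-- elements that eventually kill a descending sequence -/
def annI (e : ℕ → R) (h : ∀ k, ∃ z, e (k + 1) = e k * z) : Ideal R where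
  carrier := {r | ∃ k, r * e k = 0}
  zero_mem' := ⟨0, zero_mul _⟩
  smul_mem' c r := fun ⟨k, hk⟩ => ⟨k, by rw [smul_eq_mul, mul_assoc, hk, mul_zero]⟩
  add_mem' := by
    have key : ∀ r k l, r * e k = 0 → r * e (k + l) = 0 := by
      intro r k l hk
      induction l with
      | zero => exact hk
      | succ l ih =>
        obtain ⟨z, hz⟩ := h (k + l)
        rw [← add_assoc, hz, ← mul_assoc, ih, zero_mul]
    rintro a b ⟨k, hk⟩ ⟨l, hl⟩
    exact ⟨k + l, by rw [add_mul, key a k l hk, add_comm k, key b l k hl, add_zero]⟩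

lemma annI_ne {e : ℕ → R} (h : ∀ k, ∃ z, e (k + 1) = e k * z) (h0 : ∀ k, e k ≠ 0) :
    annI e h ≠ ⊤ := fun h' =>
  let ⟨k, hk⟩ := (Ideal.eq_top_iff_one _).1 h'
  h0 k (by rwa [one_mul] at hk)

lemma Sim.smul {S : Type} [AddCommGroup S] [Module R S] {s : S} (h : Sim B s) {p : R}
    (hp : p ∈ B) : Sim B (p • s) := fun a ha h' => by
  obtain ⟨q, q1, q2⟩ := h (a * p) (mul_mem ha hp) (by rwa [mul_smul])
  exact ⟨p * q, mul_mem hp q1, by rw [mul_smul, ← mul_smul a, q2]⟩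

theorem atom_of_At [Nontrivial R] (hS : OneType R) (mono : Monotone A) (ex : ∀ r, ∃ n, r ∈ A n)
    (h : ∀ n, Reg (A n)) (h' : ∀ n, At (A n)) : ∃ I : Ideal R, IsAtom I := by
  have step : ∀ n (e : {e // e ∈ A n ∧ e ≠ 0}), ∃ f : {e // e ∈ A (n + 1) ∧ e ≠ 0},
      (∃ z, f.1 = e.1 * z) ∧ Sim (A n) f.1 := by
    rintro n ⟨e, e1, e2⟩
    obtain ⟨x, x1, x2⟩ := h n e e1
    obtain ⟨b, b1, b2, b3⟩ := h' n (e * x) (mul_mem e1 x1) fun h => e2 (by rw [← x2, h, zero_mul])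
    have b4 := mul_mem b1 (mul_mem e1 x1)
    obtain ⟨y, y1, y2⟩ := h n _ b4
    have p1 := mul_mem (mul_mem e1 x1) y1
    refine ⟨⟨(e * x * y) • (b * (e * x)), mono (Nat.le_succ n) (mul_mem p1 b4), fun h => b2 ?_⟩,
      ⟨x * y * (b * (e * x)), by simp only [smul_eq_mul, mul_assoc]⟩, b3.smul p1⟩
    have : b * (e * x) = b * (e * x * e) * x * y * (b * (e * x)) := by
      rw [x2, mul_assoc b e x, y2]
    rw [this, show b * (e * x * e) * x * y * (b * (e * x)) =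
      b * (e * x) * ((e * x * y) • (b * (e * x))) by simp only [smul_eq_mul, mul_assoc], h, mul_zero]
  choose f f1 f2 using step
  let E : ∀ n, {e // e ∈ A n ∧ e ≠ 0} := fun n => Nat.rec ⟨1, one_mem _, one_ne_zero⟩ f n
  have h1 : ∀ k, ∃ z, (E (k + 1)).1 = (E k).1 * z := fun k => f1 k (E k)
  have h2 := annI_ne h1 fun k => (E k).2.2
  have h3 : ∀ n, ∀ a ∈ A n, a * (E (n + 1)).1 ≠ 0 → ∃ a' ∈ A n, a' * a - 1 ∈ annI (fun k => (E k).1) h1 := by
    intro n a a1 a2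
    obtain ⟨b, b1, b2⟩ := f2 n (E n) a a1 a2
    exact ⟨b, b1, n + 1, by rw [sub_mul, one_mul, mul_assoc, sub_eq_zero]; exact b2⟩
  obtain ⟨n, hn⟩ := unique_over hS mono ex h2 fun n a a1 a2 =>
    h3 n a a1 fun h => a2 ⟨n + 1, h⟩
  have h4 : ∀ L : Ideal R, L ≠ ⊤ → (∀ z, z * (E (n + 1)).1 = 0 → z ∈ L) →
      L ≤ annI (fun k => (E k).1) h1 := by
    intro L l1 l2
    obtain ⟨M, m1, m2⟩ := (eq_top_or_exists_le_coatom L).resolve_left l1
    refine hn M m1 (fun a a1 a2 => m2 (l2 a (by_contra fun a3 => h2 ?_))) ▸ m2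
    obtain ⟨b, -, b2⟩ := h3 n a a1 a3
    simpa [Ideal.eq_top_iff_one] using sub_mem (Ideal.mul_mem_left _ b a2) b2
  obtain ⟨e, he, e0⟩ : ∃ e, e = (E (n + 1)).1 ∧ e ≠ 0 := ⟨_, rfl, (E (n + 1)).2.2⟩
  rw [← he] at h4
  refine ⟨Ideal.span {e}, by simpa using e0, fun I hI => by_contra fun h5 => ?_⟩
  obtain ⟨u, u1, u2⟩ := (Submodule.ne_bot_iff I).1 h5
  obtain ⟨r, rfl⟩ := Submodule.mem_span_singleton.1 (hI.le u1)
  rw [smul_eq_mul] at u1 u2
  obtain ⟨k, hk⟩ := ex (r * e)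
  obtain ⟨w, -, hw⟩ := h k _ hk
  have l1 := h4 (Submodule.comap (LinearMap.toSpanSingleton R R e) I) (fun h => hI.not_ge (by
    simpa [Ideal.span_le] using (Ideal.eq_top_iff_one _).1 h)) (fun z hz => by simp [hz])
  have l2 := h4 (LinearMap.ker (LinearMap.toSpanSingleton R R (e * w * (r * e)))) (fun h => u2 (by
    have : e * w * (r * e) = 0 := by simpa using (Ideal.eq_top_iff_one _).1 h
    rw [← hw, mul_assoc r, mul_assoc r, this, mul_zero])) (fun z hz => by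
      simp [← mul_assoc, hz])
  refine h2 ((Ideal.eq_top_iff_one _).2 ?_)
  have l3 := add_mem (l1 (x := e * w * r) (by simpa [mul_assoc] using I.mul_mem_left (e * w) u1))
    (l2 (x := 1 - e * w * r) (by
      have : e * w * r * (e * w * (r * e)) = e * w * (r * e * w * (r * e)) := by noncomm_ring
      simp [sub_mul, this, hw]))
  simpa using l3

lemma At.of_atomic {C : Type} [Ring C] [IsAtomic (Ideal C)] (f : C →+* R)
    (hf : Function.Injective f) (hB : ∀ a, a ∈ B ↔ ∃ c, f c = a) : At B := by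
  intro a ha h0
  obtain ⟨a, rfl⟩ := (hB a).1 ha
  obtain ⟨I, i1, i2⟩ := (eq_bot_or_exists_atom_le (Ideal.span {a})).resolve_left fun h =>
    h0 (by rw [Ideal.span_singleton_eq_bot.1 h, map_zero])
  obtain ⟨u, u1, u2⟩ := (Submodule.ne_bot_iff I).1 i1.1
  obtain ⟨b, rfl⟩ := Submodule.mem_span_singleton.1 (i2 u1)
  rw [smul_eq_mul] at u1 u2
  refine ⟨f b, (hB _).2 ⟨b, rfl⟩, by rwa [← map_mul, map_ne_zero_iff f hf], fun c hc h => ?_⟩
  obtain ⟨c, rfl⟩ := (hB c).1 hc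
  rw [smul_eq_mul, ← map_mul, ← map_mul, map_ne_zero_iff f hf] at h
  have := (i1.le_iff.1 (show Ideal.span {c * (b * a)} ≤ I by
    simpa [Ideal.span_le] using I.mul_mem_left c u1)).resolve_left (by simpa using h)
  obtain ⟨q, hq⟩ := Submodule.mem_span_singleton.1 (this.ge u1)
  exact ⟨f q, (hB _).2 ⟨q, rfl⟩, by simpa using congrArg f hq⟩

lemma tree (h : Reg B) (h' : ¬ At B) : ∃ E : (ℕ → Bool) → ℕ → R,
    (∀ x k, E x k ∈ B ∧ E x k ≠ 0 ∧ E x k * E x k = E x k ∧ E x (k + 1) = E x k * E x (k + 1)) ∧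
      ∀ x y, x ≠ y → ∃ k, ∀ l, E x (k + l) * E y k = 0 := by
  let T := {e // e ∈ B ∧ e ≠ 0 ∧ e * e = e ∧ ∀ b ∈ B, b * e ≠ 0 → ¬ Sim B (b * e)}
  obtain ⟨e0⟩ : Nonempty T := by
    unfold At at h'
    push Not at h'
    obtain ⟨a, a1, a2, a3⟩ := h'
    obtain ⟨x, x1, x2⟩ := h a a1
    refine ⟨⟨x * a, mul_mem x1 a1, fun h => a2 (by rw [← x2, mul_assoc, h, mul_zero]),
      by rw [mul_assoc, ← mul_assoc a, x2], fun b b1 => ?_⟩⟩
    rw [← mul_assoc]
    exact a3 _ (mul_mem b1 x1)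
  have step : ∀ e : T, ∃ f : Bool → T, (∀ b, (f b).1 = e.1 * (f b).1 ∧ (f b).1 * e.1 = (f b).1) ∧
      ∀ b b', b ≠ b' → (f b).1 * (f b').1 = 0 := by
    rintro ⟨e, e1, e2, e3, e4⟩
    have e5 := e4 1 (one_mem _) (by rwa [one_mul])
    unfold Sim at e5
    push Not at e5
    obtain ⟨c, c1, c2, c3⟩ := e5
    simp only [one_mul, smul_eq_mul] at c2 c3
    obtain ⟨w, w1, w2⟩ := h _ (mul_mem c1 e1)
    obtain ⟨f, hf⟩ : ∃ f, f = e * w * (c * e) := ⟨_, rfl⟩
    have f0 : f ∈ B := hf ▸ mul_mem (mul_mem e1 w1) (mul_mem c1 e1)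
    have f1 : e * f = f := by rw [hf, ← mul_assoc, ← mul_assoc, ← mul_assoc, e3, mul_assoc]
    have f2 : f * e = f := by rw [hf, mul_assoc, mul_assoc c, e3]
    have f3 : c * f = c * e := by rw [hf, ← mul_assoc, ← mul_assoc c e w, w2]
    have f4 : f * f = f := by
      nth_rw 1 [hf]
      rw [mul_assoc, mul_assoc c, f1, f3, hf]
    have sub : ∀ g, g ∈ B → g * e = g → ∀ b ∈ B, b * g ≠ 0 → ¬ Sim B (b * g) := by
      intro g g1 g2 b b1
      rw [← g2, ← mul_assoc]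
      exact e4 _ (mul_mem b1 g1)
    refine ⟨fun b => if b then ⟨f, f0, fun h => c2 (by rw [← f3, h, mul_zero]), f4, sub f f0 f2⟩ else
      ⟨e - f, sub_mem e1 f0, fun h => c3 _ (mul_mem e1 w1) (hf.symm.trans (sub_eq_zero.1 h).symm),
        by rw [sub_mul, mul_sub, mul_sub, e3, f1, f2, f4, sub_self, sub_zero],
        sub _ (sub_mem e1 f0) (by rw [sub_mul, e3, f2])⟩, ?_, ?_⟩
    · rintro (_ | _) <;> simp [mul_sub, sub_mul, e3, f1, f2]
    · rintro (_ | _) (_ | _) <;> simp [mul_sub, sub_mul, f1, f2, f4]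
  choose σ s1 s2 using step
  let E : (ℕ → Bool) → ℕ → T := fun x k => Nat.rec e0 (fun k e => σ e (x k)) k
  refine ⟨fun x k => (E x k).1, fun x k => ⟨(E x k).2.1, (E x k).2.2.1, (E x k).2.2.2.1,
    (s1 _ _).1⟩, fun x y hxy => ?_⟩
  have hex := Function.ne_iff.1 hxy
  have h1 : ∀ k ≤ Nat.find hex, E x k = E y k := by
    intro k hk
    induction k with
    | zero => rfl
    | succ k ih =>
      change σ (E x k) (x k) = σ (E y k) (y k)
      rw [ih (by omega), not_not.1 (Nat.find_min hex hk)]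
  refine ⟨Nat.find hex + 1, fun l => ?_⟩
  induction l with
  | zero =>
    change (σ (E x _) (x _)).1 * (σ (E y _) (y _)).1 = 0
    rw [h1 _ le_rfl]
    exact s2 _ _ _ (Nat.find_spec hex)
  | succ l ih =>
    change (σ (E x _) (x _)).1 * _ = 0
    rw [← (s1 _ _).2, mul_assoc]
    exact (congrArg _ ih).trans (mul_zero _)

/-- all simple modules have dimension less than the continuum over their endomorphism ring -/
def Sm (C : Type) [Ring C] : Prop := ∀ (P : Type) [AddCommGroup P] [Module C P],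
  IsSimpleModule C P → Module.rank (Module.End C P) P < 𝔠

theorem At_of_Sm [Nontrivial R] (hS : OneType R) (mono : Monotone A) (ex : ∀ r, ∃ n, r ∈ A n)
    (h : ∀ n, Reg (A n)) (h' : ∀ n, ∃ (C : Type) (_ : Ring C) (f : C →+* R),
      (∀ a, a ∈ A n ↔ ∃ c, f c = a) ∧ Sm C) (n : ℕ) : At (A n) := by
  classical
  by_contra hn
  obtain ⟨E, e1, e2⟩ := tree (h n) hn
  obtain ⟨M, m1, m2⟩ := exists_chain mono h
  have key : ∀ x, ∃ m r, n ≤ m ∧ r ∈ A m ∧ r • pt M ≠ 0 ∧ ∀ k, E x k • r • pt M = r • pt M := by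
    intro x
    have h1 : ∀ k, ∃ z, E x (k + 1) = E x k * z := fun k => ⟨_, (e1 x k).2.2.2⟩
    obtain ⟨N, n1, n2⟩ := (eq_top_or_exists_le_coatom _).resolve_left
      (annI_ne h1 fun k => (e1 x k).2.1)
    obtain ⟨r, hr⟩ := realize hS (coatom_of_Mx ex m1 m2) n1
    obtain ⟨m, hm⟩ := ex r
    refine ⟨n + m, r, by omega, mono (by omega) hm, fun h => n1.1 ((Ideal.eq_top_iff_one _).2
      ((hr 1).1 (by rw [h, smul_zero]))), fun k => ?_⟩
    have := (hr (E x k - 1)).2 (n2 ⟨k, by rw [sub_mul, (e1 x k).2.2.1, one_mul, sub_self]⟩)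
    rwa [sub_smul, one_smul, sub_eq_zero] at this
  choose m r k1 k2 k3 k4 using key
  obtain ⟨l, hl⟩ := infinite_pigeonhole_card m 𝔠 (by simp) aleph0_le_continuum
    (by simpa using lt_cof_ord_power (b := 2) le_rfl (by simp))
  obtain ⟨C, _, f, f1, f2⟩ := h' l
  let _ : Module C (R ⧸ M) := Module.compHom _ f
  let P : Submodule C (R ⧸ M) := Submodule.span C {pt M}
  have hP : ∀ x y : P, x ≠ 0 → ∃ c : C, c • x = y := by
    rintro ⟨_, hx⟩ ⟨_, hy⟩ h0
    obtain ⟨p, rfl⟩ := Submodule.mem_span_singleton.1 hx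
    obtain ⟨q, rfl⟩ := Submodule.mem_span_singleton.1 hy
    obtain ⟨p', p1, p2⟩ := (m2 l).sim (f p) ((f1 _).2 ⟨p, rfl⟩) fun h => h0 (Subtype.ext h)
    obtain ⟨p', rfl⟩ := (f1 _).1 p1
    refine ⟨q * p', Subtype.ext ?_⟩
    change f (q * p') • f p • pt M = f q • pt M
    rw [map_mul, mul_smul, p2]
  have h0 : Nontrivial P :=
    ⟨⟨pt M, Submodule.mem_span_singleton_self _⟩, 0, fun h => pt_ne m1 (congrArg Subtype.val h)⟩
  have h1 := f2 P (isSimpleModule_iff_toSpanSingleton_surjective.2 ⟨h0, fun x hx y => hP x y hx⟩)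
  let v : m ⁻¹' {l} → P := fun x => ⟨r x • pt M, by
    obtain ⟨c, hc⟩ := (f1 (r x)).1 (mono (show m x = l from x.2).le (k2 x))
    exact Submodule.mem_span_singleton.2 ⟨c, by rw [← hc]; rfl⟩⟩
  have h2 : LinearIndependent (Module.End C P) v := by
    refine (linearIndependent_iff' (R := Module.End C P) (v := v)).2 fun F g hg x hx => ?_
    choose! K hK using e2 x.1
    obtain ⟨c, hc⟩ := (f1 (E x (F.sup fun y => K y))).1 
      (mono ((k1 x).trans_eq x.2) (e1 _ _).1)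
    have h3 := congrArg (c • ·) hg
    simp only [Finset.smul_sum, smul_zero, Module.End.smul_def, ← map_smul] at h3
    rw [Finset.sum_eq_single_of_mem x hx fun y hy hne => by
      have : c • v y = 0 := Subtype.ext (by
        obtain ⟨d, hd⟩ := Nat.exists_eq_add_of_le (Finset.le_sup (f := fun y : m ⁻¹' {l} => K y) hy)
        change f c • r y • pt M = 0
        rw [hc, hd, ← k4 y (K y), ← mul_smul, hK y fun h => hne (Subtype.ext h.symm), zero_smul])
      rw [this, map_zero]] at h3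
    have h4 : c • v x = v x := Subtype.ext (by
      change f c • r x • pt M = r x • pt M
      rw [hc, k4])
    ext1 z
    obtain ⟨d, rfl⟩ := hP (v x) z fun h => k3 x (congrArg Subtype.val h)
    rw [map_smul, ← h4, h3, smul_zero, LinearMap.zero_apply]
  exact (hl.trans h2.cardinal_le_rank).not_gt h1

end Pool.Agent.Lib.MP_57313b_al
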