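import Pool.Agent.Lib.MP_57313b_al.Dia.Final

namespace Pool.Agent.Lib.MP_57313b_al.ConsistentRetired

open Pool.Agent.Shared.Forcing Pool.Agent.Lib.MP_57313b_al.Dia

/-- There is a model of ZFC containing a simple von Neumann regular ring that is not right
artinian and has exactly one indecomposable injective right module up to isomorphism. -/
theorem result :
    ∃ (M : Type 2) (E : M → M → Prop), ModelZFC E ∧ ∃ R a m : M,
      IsRing E R a m ∧ Regular E R m ∧ Simple E R a m ∧ ¬ Artinian E R a m ∧
      OnePoint E R a m :=
  model

end Pool.Agent.Lib.MP_57313b_al.ConsistentRetired
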