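import Pool.Agent.Lib.MP_57313b_al.Rigid

/-!
Directly finite simple regular rings with countable interpolation have two simple modules.
-/

namespace Pool.Agent.Lib.MP_57313b_al

open Finset

variable {R : Type} [Ring R]

/-- `a` is a sum of `c` elements of `R f R` -/
def Cp (f : R) (c : ℕ) (a : R) : Prop := ∃ u v : ℕ → R, a = ∑ i ∈ range c, u i * f * v i

variable {f a b e g : R} {c c' : ℕ}

lemma Cp.mul (h : Cp f c a) (x y : R) : Cp f c (x * a * y) := by
  obtain ⟨u, v, rfl⟩ := h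
  exact ⟨fun i => x * u i, fun i => v i * y, by simp only [mul_sum, sum_mul, mul_assoc]⟩

lemma Cp.add (h : Cp f c a) (h' : Cp f c' b) : Cp f (c + c') (a + b) := by
  obtain ⟨u, v, rfl⟩ := h
  obtain ⟨u', v', rfl⟩ := h'
  refine ⟨fun i => if i < c then u i else u' (i - c), fun i => if i < c then v i else v' (i - c), ?_⟩
  rw [sum_range_add]
  congr 1
  · exact sum_congr rfl fun i hi => by simp [mem_range.1 hi]
  · exact sum_congr rfl fun i _ => by simp

lemma cp_zero (f : R) (c : ℕ) : Cp f c 0 := ⟨0, 0, by simp⟩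

lemma Cp.of (h : Cp f c a) {x y : R} (hf : f = x * b * y) : Cp b c a := by
  obtain ⟨u, v, rfl⟩ := h
  exact ⟨fun i => u i * x, fun i => y * v i, by simp only [hf, mul_assoc]⟩

lemma cp_one (x f y : R) : Cp f 1 (x * f * y) := ⟨fun _ => x, fun _ => y, by simp⟩

lemma cp_simple [IsSimpleRing R] (hf : f ≠ 0) : ∃ c, Cp f c 1 := by
  let I := TwoSidedIdeal.mk' {a : R | ∃ c, Cp f c a} ⟨0, cp_zero f 0⟩
    (fun ⟨_, h⟩ ⟨_, h'⟩ => ⟨_, h.add h'⟩)
    (fun {x} ⟨c, h⟩ => ⟨c, by simpa using h.mul (-1) 1⟩)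
    (fun {x y} ⟨c, h⟩ => ⟨c, by simpa using h.mul x 1⟩)
    (fun {x y} ⟨c, h⟩ => ⟨c, by simpa using h.mul 1 y⟩)
  have := IsSimpleRing.one_mem_of_ne_zero_mem I hf
    ((TwoSidedIdeal.mem_mk' ..).2 ⟨1, by simpa using cp_one 1 f 1⟩)
  rwa [TwoSidedIdeal.mem_mk'] at this

/-- `c` independent copies of `f` below `e` -/
def Sys (c : ℕ) (e f : R) : Prop := f ≠ 0 ∧ f * f = f ∧ ∃ s t : ℕ → R,
  (∀ i < c, f * s i = s i ∧ s i * e = s i ∧ e * t i = t i ∧ t i * f = t i) ∧
    ∀ i < c, ∀ j < c, s i * t j = if i = j then f else 0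

lemma Sys.not_cp (df : ∀ x y : R, x * y = 1 → y * x = 1) (h : Sys (c + 1) g f) : ¬ Cp f c g := by
  rintro ⟨u, v, hg⟩
  obtain ⟨h0, -, s, t, h1, h2⟩ := h
  obtain ⟨p, hp⟩ : ∃ p, p = ∑ i ∈ range (c + 1), t i * s i := ⟨_, rfl⟩
  have p1 : ∀ i < c + 1, s i * p = s i := fun i hi => by
    rw [hp, mul_sum, sum_eq_single_of_mem i (mem_range.2 hi), ← mul_assoc, h2 i hi i hi, if_pos rfl,
      (h1 i hi).1]
    intro j hj hne
    rw [← mul_assoc, h2 i hi j (mem_range.1 hj), if_neg hne.symm, zero_mul]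
  have p2 : ∀ i < c + 1, p * t i = t i := fun i hi => by
    rw [hp, sum_mul, sum_eq_single_of_mem i (mem_range.2 hi), mul_assoc, h2 i hi i hi, if_pos rfl,
      (h1 i hi).2.2.2]
    intro j hj hne
    rw [mul_assoc, h2 j (mem_range.1 hj) i hi, if_neg hne, mul_zero]
  have p3 : p * p = p := by
    nth_rw 1 [hp]
    rw [sum_mul, hp]
    exact sum_congr rfl fun i hi => by rw [mul_assoc, ← hp, p1 i (mem_range.1 hi)]
  have p4 : p * g = p := by
    rw [hp, sum_mul]
    exact sum_congr rfl fun i hi => by rw [mul_assoc, (h1 i (mem_range.1 hi)).2.1]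
  obtain ⟨U, hU⟩ : ∃ U, U = ∑ i ∈ range c, p * u i * s i := ⟨_, rfl⟩
  obtain ⟨V, hV⟩ : ∃ V, V = ∑ i ∈ range c, t i * v i := ⟨_, rfl⟩
  have q1 : U * V = p := by
    rw [← p4, hg, hU, sum_mul, mul_sum]
    refine sum_congr rfl fun i hi => ?_
    have hi' := mem_range.1 hi
    rw [hV, mul_sum, sum_eq_single_of_mem i hi]
    · rw [mul_assoc, ← mul_assoc (s i), h2 i (by omega) i (by omega), if_pos rfl]
      simp only [mul_assoc]
    · intro j hj hne
      have := mem_range.1 hj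
      rw [mul_assoc, ← mul_assoc (s i), h2 i (by omega) j (by omega), if_neg hne.symm, zero_mul,
        mul_zero]
  have q2 : U * p = U := by
    rw [hU, sum_mul]
    exact sum_congr rfl fun i hi => by
      have := mem_range.1 hi
      rw [mul_assoc, p1 i (by omega)]
  have q3 : p * V = V := by
    rw [hV, mul_sum]
    exact sum_congr rfl fun i hi => by
      have := mem_range.1 hi
      rw [← mul_assoc, p2 i (by omega)]
  have q4 : s c * V = 0 := by
    rw [hV, mul_sum]
    exact sum_eq_zero fun i hi => by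
      have := mem_range.1 hi
      rw [← mul_assoc, h2 c (by omega) i (by omega), if_neg (by omega), zero_mul]
  have q5 := df (U + (1 - p)) (V + (1 - p)) (by
    simp only [mul_add, add_mul, mul_sub, sub_mul, mul_one, one_mul, q1, q2, q3, p3]
    abel)
  have q6 : s c = 0 := by
    rw [← mul_one (s c), ← q5, ← mul_assoc, mul_add (s c), q4, mul_sub, mul_one, p1 c (by omega)]
    simp
  have := h2 c (by omega) c (by omega)
  rw [q6, zero_mul, if_pos rfl] at this
  exact h0 this.symm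

/-- every nonzero idempotent splits -/
def Split (R : Type) [Ring R] : Prop := ∀ e : R, e ≠ 0 → e * e = e →
  ∃ p : R, p ≠ 0 ∧ p ≠ e ∧ p * p = p ∧ e * p = p ∧ p * e = p

lemma split_idem (reg : ∀ a : R, ∃ x, a * x * a = a) (this : ¬ IsAtom (Ideal.span {e}))
    (h0 : e ≠ 0) (h1 : e * e = e) :
    ∃ p : R, p ≠ 0 ∧ p ≠ e ∧ p * p = p ∧ e * p = p ∧ p * e = p := by
  rw [IsAtom, not_and] at this
  have := this (by simpa using h0)
  push Not at this
  obtain ⟨L, l1, l2⟩ := this
  obtain ⟨a, a1, a2⟩ := (Submodule.ne_bot_iff L).1 l2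
  obtain ⟨r, hr⟩ := Submodule.mem_span_singleton.1 (l1.le a1)
  have a3 : a * e = a := by rw [← hr, smul_eq_mul, mul_assoc, h1]
  obtain ⟨x, hx⟩ := reg a
  have a4 : a * (e * x * a) = a := by rw [← mul_assoc, ← mul_assoc, a3, hx]
  refine ⟨e * x * a, fun h => a2 (by rw [← a4, h, mul_zero]), fun h => l1.not_ge ?_, ?_, ?_, ?_⟩
  · rw [Ideal.span_singleton_le_iff_mem, ← h]
    exact L.mul_mem_left _ a1
  · rw [mul_assoc _ a, a4]
  · rw [← mul_assoc, ← mul_assoc, h1]
  · rw [mul_assoc, a3]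

lemma exists_sys [IsSimpleRing R] (reg : ∀ a : R, ∃ x, a * x * a = a)
    (na : Split R) (c : ℕ) : ∀ e : R, e ≠ 0 → e * e = e → ∃ f, Sys c e f := by
  induction c with
  | zero => exact fun e h0 h1 => ⟨e, h0, h1, 0, 0, by simp, by simp⟩
  | succ c ih =>
    intro e h0 h1
    obtain ⟨p, p0, p1, p2, p3, p4⟩ := na e h0 h1
    obtain ⟨f, f0, f1, s, t, f2, f3⟩ := ih p p0 p2
    obtain ⟨q, hq⟩ : ∃ q, q = e - p := ⟨_, rfl⟩
    have q0 : q ≠ 0 := hq ▸ sub_ne_zero.2 p1.symm
    have q1 : p * q = 0 := by rw [hq, mul_sub, p4, p2, sub_self]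
    have q2 : q * p = 0 := by rw [hq, sub_mul, p3, p2, sub_self]
    have q3 : e * q = q := by rw [hq, mul_sub, h1, p3]
    have q4 : q * e = q := by rw [hq, sub_mul, h1, p4]
    have q5 : q * q = q := by
      nth_rw 1 [hq]
      rw [sub_mul, q3, q1, sub_zero]
    obtain ⟨r, hr⟩ : ∃ r, f * r * q ≠ 0 := by
      by_contra h
      push Not at h
      obtain ⟨k, u, v, hk⟩ := cp_simple f0
      refine q0 ?_
      rw [← one_mul q, hk, sum_mul]
      exact sum_eq_zero fun i _ => by rw [mul_assoc (u i), mul_assoc (u i), h, mul_zero]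
    obtain ⟨w, hw⟩ : ∃ w, w = f * r * q := ⟨_, rfl⟩
    obtain ⟨z, hz⟩ := reg w
    have w1 : f * w = w := by rw [hw, ← mul_assoc, ← mul_assoc, f1]
    have w2 : w * q = w := by rw [hw, mul_assoc, q5]
    obtain ⟨k, hk⟩ : ∃ k, k = w * z * f := ⟨_, rfl⟩
    have k1 : k * w = w := by rw [hk, mul_assoc, w1, hz]
    have k2 : k * f = k := by rw [hk, mul_assoc, f1]
    have k3 : f * k = k := by rw [hk, ← mul_assoc, ← mul_assoc, w1]
    have k4 : k * k = k := by
      nth_rw 2 [hk]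
      rw [← mul_assoc, ← mul_assoc, k1, hk]
    have k5 : w * (q * z * k) = k := by
      rw [← mul_assoc, ← mul_assoc, w2, ← k3, ← mul_assoc, ← hk, k4, k3]
    refine ⟨k, fun h => hr (by rw [← hw, ← k1, h, zero_mul]), k4,
      fun i => if i < c then k * s i else w, fun i => if i < c then t i * k else q * z * k, ?_, ?_⟩
    · intro i _
      by_cases hi : i < c
      · obtain ⟨a1, a2, a3, a4⟩ := f2 i hi
        simp only [if_pos hi]
        refine ⟨by rw [← mul_assoc, k4], ?_, ?_, by rw [mul_assoc, k4]⟩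
        · rw [mul_assoc, ← a2, mul_assoc, p4]
        · rw [← mul_assoc, ← a3, ← mul_assoc, p3]
      · simp only [if_neg hi]
        refine ⟨k1, ?_, ?_, by rw [mul_assoc, k4]⟩
        · rw [← w2, mul_assoc, q4]
        · rw [← mul_assoc, ← mul_assoc, q3]
    · intro i hi j hj
      by_cases h2 : i < c <;> by_cases h3 : j < c <;> simp only [h2, h3, if_true, if_false]
      · rw [mul_assoc, ← mul_assoc (s i), f3 i h2 j h3]
        split_ifs
        · rw [k3, k4]
        · rw [zero_mul, mul_zero]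
      · rw [if_neg (by omega), ← (f2 i h2).2.1]
        simp only [mul_assoc]
        rw [← mul_assoc p, q1, zero_mul, mul_zero, mul_zero]
      · rw [if_neg (by omega), ← w2, ← (f2 j h3).2.2.1]
        simp only [mul_assoc]
        rw [← mul_assoc q, q2, zero_mul, mul_zero]
      · rw [if_pos (by omega), k5]

lemma exists_div [IsSimpleRing R] (reg : ∀ a : R, ∃ x, a * x * a = a)
    (na : Split R) (df : ∀ x y : R, x * y = 1 → y * x = 1) (c : ℕ)
    (h0 : e ≠ 0) (h1 : e * e = e) :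
    ∃ f : R, f ≠ 0 ∧ f * f = f ∧ e * f = f ∧ f * e = f ∧ ¬ Cp f c (e - f) := by
  obtain ⟨k, k0, k1, s, t, k2, k3⟩ := exists_sys reg na (c + 2) e h0 h1
  obtain ⟨a1, a2, a3, a4⟩ := k2 (c + 1) (by omega)
  have a5 : s (c + 1) * t (c + 1) = k := by rw [k3 _ (by omega) _ (by omega), if_pos rfl]
  refine ⟨t (c + 1) * s (c + 1), fun h => k0 ?_, ?_, by rw [← mul_assoc, a3], by rw [mul_assoc, a2],
    fun h => Sys.not_cp df ⟨k0, k1, s, t, fun i hi => ?_, fun i hi j hj => k3 i (by omega) j (by omega)⟩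
      (h.of (x := t (c + 1)) (y := s (c + 1)) (by rw [a4]))⟩
  · rw [← k1, ← a5, mul_assoc, ← mul_assoc (t (c + 1)), h, zero_mul, mul_zero]
  · rw [mul_assoc, ← mul_assoc (s _), a5, a1]
  · obtain ⟨b1, b2, b3, b4⟩ := k2 i (by omega)
    refine ⟨b1, ?_, ?_, b4⟩
    · rw [mul_sub, b2, ← mul_assoc, k3 _ (by omega) _ (by omega), if_neg (by omega), zero_mul,
        sub_zero]
    · rw [sub_mul, b3, mul_assoc, k3 _ (by omega) _ (by omega), if_neg (by omega), mul_zero,
        sub_zero]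

/-- descending idempotents -/
structure Desc (F : ℕ → R) : Prop where
  id : ∀ n, F n * F n = F n
  l : ∀ n, F n * F (n + 1) = F (n + 1)
  r : ∀ n, F (n + 1) * F n = F (n + 1)

/-- the tower of idempotents -/
structure Tow (F B : ℕ → R) : Prop extends Desc F where
  zero : F 0 = 1
  b : ∀ n, B n * B n = B n ∧ F n * B n = B n ∧ B n * F n = B n ∧ B n * F (n + 1) = F (n + 1) ∧
    F (n + 1) * B n = F (n + 1)
  n1 : ∀ n, ¬ Cp (B n) n (F n - F (n + 1))
  n2 : ∀ n, ¬ Cp (F (n + 1)) n (B n - F (n + 1))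

lemma exists_tow [IsSimpleRing R] (reg : ∀ a : R, ∃ x, a * x * a = a)
    (na : Split R) (df : ∀ x y : R, x * y = 1 → y * x = 1) :
    ∃ F B : ℕ → R, Tow F B := by
  have step : ∀ (c : ℕ) (e : {e : R // e ≠ 0 ∧ e * e = e}), ∃ (f : {e : R // e ≠ 0 ∧ e * e = e})
      (b : R), (e.1 * f = f ∧ f.1 * e = f) ∧ (b * b = b ∧ e * b = b ∧ b * e = b ∧ b * f = f ∧
        f * b = f) ∧ ¬ Cp b c (e - f) ∧ ¬ Cp f.1 c (b - f) := by
    rintro c ⟨e, h0, h1⟩
    obtain ⟨b, b0, b1, b2, b3, b4⟩ := exists_div reg na df c h0 h1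
    obtain ⟨f, f0, f1, f2, f3, f4⟩ := exists_div reg na df c b0 b1
    have f5 : e * f = f := by rw [← f2, ← mul_assoc, b2]
    have f6 : f * e = f := by rw [← f3, mul_assoc, b3]
    refine ⟨⟨f, f0, f1⟩, b, ⟨f5, f6⟩, ⟨b1, b2, b3, f2, f3⟩,
      fun h => b4 ?_, f4⟩
    have := h.mul (e - b) 1
    simp only [mul_one, mul_sub, sub_mul, h1, b3, f5, f2, sub_self, sub_zero] at this
    exact this
  choose f b h1 h2 h3 h4 using step
  let E : ℕ → {e : R // e ≠ 0 ∧ e * e = e} := fun n => Nat.rec ⟨1, one_ne_zero, one_mul 1⟩ f n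
  refine ⟨fun n => (E n).1, fun n => b n (E n), ?_⟩
  exact ⟨⟨fun n => (E n).2.2, fun n => (h1 n (E n)).1,
    fun n => (h1 n (E n)).2⟩, rfl, fun n => h2 n (E n), fun n => h3 n (E n), fun n => h4 n (E n)⟩

variable {F B : ℕ → R}

lemma Desc.le (T : Desc F) {n m : ℕ} (h : n ≤ m) : F n * F m = F m ∧ F m * F n = F m := by
  induction m, h using Nat.le_induction with
  | base => exact ⟨T.id n, T.id n⟩
  | succ m _ ih => exact ⟨by rw [← T.l m, ← mul_assoc, ih.1], by rw [← T.r m, mul_assoc, ih.2]⟩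

lemma Desc.fg (T : Desc F) (n m : ℕ) :
    F n * (F m - F (m + 1)) = (if n ≤ m then F m - F (m + 1) else 0) ∧
      (F m - F (m + 1)) * F n = if n ≤ m then F m - F (m + 1) else 0 := by
  split_ifs with h
  · rw [mul_sub, sub_mul, (T.le h).1, (T.le h).2, (T.le (h.trans m.le_succ)).1,
      (T.le (h.trans m.le_succ)).2]
    exact ⟨rfl, rfl⟩
  · have h1 : m ≤ n := by omega
    have h2 : m + 1 ≤ n := by omega
    rw [mul_sub, sub_mul, (T.le h1).1, (T.le h1).2, (T.le h2).1, (T.le h2).2, sub_self]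
    exact ⟨rfl, rfl⟩

lemma Desc.gg (T : Desc F) (n m : ℕ) :
    (F n - F (n + 1)) * (F m - F (m + 1)) = if n = m then F n - F (n + 1) else 0 := by
  rw [sub_mul, (T.fg n m).1, (T.fg (n + 1) m).1]
  split_ifs <;> first | omega | simp [*]

lemma Tow.small [IsSimpleRing R] (T : Tow F B) {y : R} (h : ∀ n, ∃ u v, y = u * F n * v) :
    y = 0 := by
  by_contra h0
  obtain ⟨c, hc⟩ := cp_simple h0
  obtain ⟨u, v, e⟩ := h (c + 1)
  refine T.n1 c ?_
  simpa using (hc.of (b := B c) (x := u) (y := F (c + 1) * v)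
    (by rw [e, mul_assoc u (B c), ← mul_assoc (B c), (T.b c).2.2.2.1, mul_assoc])).mul
      (F c - F (c + 1)) 1

lemma Tow.extr [IsSimpleRing R] (T : Tow F B) {x y : R}
    (h : ∀ n, x * (F n - F (n + 1)) = y * (F n - F (n + 1))) : x = y := by
  refine sub_eq_zero.1 (T.small fun n => ⟨x - y, 1, ?_⟩)
  rw [mul_one]
  induction n with
  | zero => rw [T.zero, mul_one]
  | succ n ih =>
    have := h n
    rw [← sub_eq_zero, ← sub_mul, mul_sub, sub_eq_zero] at this
    rw [← this, ← ih]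

lemma Tow.extl [IsSimpleRing R] (T : Tow F B) {x y : R}
    (h : ∀ n, (F n - F (n + 1)) * x = (F n - F (n + 1)) * y) : x = y := by
  refine sub_eq_zero.1 (T.small fun n => ⟨1, x - y, ?_⟩)
  rw [one_mul]
  induction n with
  | zero => rw [T.zero, one_mul]
  | succ n ih =>
    have := h n
    rw [← sub_eq_zero, ← mul_sub, sub_mul, sub_eq_zero] at this
    rw [← this, ← ih]

/-- left ideal of elements with uniformly bounded components -/
def bdd (b a : ℕ → R) : Ideal R where
  carrier := {z | ∃ c, ∀ n, Cp (b n) c (z * a n)}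
  zero_mem' := ⟨0, fun n => by simpa using cp_zero (b n) 0⟩
  add_mem' := fun ⟨c, h⟩ ⟨c', h'⟩ => ⟨c + c', fun n => by rw [add_mul]; exact (h n).add (h' n)⟩
  smul_mem' x z := fun ⟨c, h⟩ => ⟨c, fun n => by simpa [mul_assoc] using (h n).mul x 1⟩

lemma bdd_ne {b a : ℕ → R} (h : ∀ n, ¬ Cp (b n) n (a n)) : bdd b a ≠ ⊤ := fun h' =>
  let ⟨c, hc⟩ := (Ideal.eq_top_iff_one _).1 h'
  h c (by simpa using hc c)

/-- rows can be prescribed along orthogonal idempotents -/
def Rows (R : Type) [Ring R] : Prop := ∀ g b : ℕ → R,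
  (∀ n m, g n * g m = if n = m then g n else 0) → ∃ y, ∀ n, g n * y = g n * b n

/-- columns can be prescribed along orthogonal idempotents -/
def Cols (R : Type) [Ring R] : Prop := ∀ g b : ℕ → R,
  (∀ n m, g n * g m = if n = m then g n else 0) → ∃ y, ∀ n, y * g n = b n * g n

/-- any two maximal one-sided ideals have isomorphic quotients -/
def OneSimple (R : Type) [Ring R] : Prop :=
  ∀ M N : Ideal R, IsCoatom M → IsCoatom N → ∃ r : R, ∀ c : R, c * r ∈ M ↔ c ∈ N

/-- there are two non-isomorphic simple modules -/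
def TwoSimple (R : Type) [Ring R] : Prop :=
  ∃ (M : Type) (_ : AddCommGroup M) (_ : Module R M) (N : Type) (_ : AddCommGroup N)
    (_ : Module R N), IsSimpleModule R M ∧ IsSimpleModule R N ∧ IsEmpty (M ≃ₗ[R] N)

theorem two_of_not_oneSimple (h : ¬ OneSimple R) : TwoSimple R ∧ Two R := by
  refine ⟨by_contra fun h' => h fun M N hM hN => ?_, by_contra fun h' => h fun M N hM hN => ?_⟩
  · obtain ⟨e⟩ : Nonempty ((R ⧸ N) ≃ₗ[R] (R ⧸ M)) := by
      by_contra h2
      exact h' ⟨_, _, _, _, _, _, isSimpleModule_iff_isCoatom.2 hN,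
        isSimpleModule_iff_isCoatom.2 hM, not_nonempty_iff.1 h2⟩
    obtain ⟨r, hr⟩ := gen_pt (e (pt N))
    exact ⟨r, fun c => by
      rw [← smul_pt, mul_smul, ← hr, ← map_smul, map_eq_zero_iff e e.injective, smul_pt]⟩
  · obtain ⟨r, hr⟩ := realize (star_of_not_two h') hM hN
    exact ⟨r, fun c => by rw [← hr, ← mul_smul, smul_pt]⟩

lemma rows_of_inj (h : ∀ I : Ideal R, (∃ s : Set R, s.Countable ∧ Ideal.span s = I) →
    ∀ φ : I →ₗ[R] R, ∃ c : R, ∀ x : I, φ x = x * c) : Rows R := by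
  intro g b hg
  have fin : ∀ x : Ideal.span (Set.range g),
      (Function.support fun n => x.1 * g n * b n).Finite := by
    rintro ⟨x, hx⟩
    induction hx using Submodule.span_induction with
    | mem x hx =>
      obtain ⟨m, rfl⟩ := hx
      refine (Set.finite_singleton m).subset fun n hn => by_contra fun h => hn ?_
      simp only [hg, if_neg (Ne.symm h), zero_mul]
    | zero => simp
    | add x y _ _ h1 h2 =>
      simp only [add_mul]
      exact (h1.union h2).subset (Function.support_add _ _)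
    | smul a x _ h1 =>
      refine h1.subset fun n hn h => hn ?_
      simp only [smul_eq_mul, mul_assoc] at h ⊢
      rw [h, mul_zero]
  obtain ⟨c, hc⟩ := h _ ⟨_, Set.countable_range g, rfl⟩
    { toFun := fun x => ∑ᶠ n, x.1 * g n * b n
      map_add' := fun x y => by
        simp only [Submodule.coe_add, add_mul]
        exact finsum_add_distrib (fin x) (fin y)
      map_smul' := fun a x => by
        simp only [Submodule.coe_smul, smul_eq_mul, RingHom.id_apply, mul_assoc]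
        have := fin x
        simp only [mul_assoc] at this
        exact (mul_finsum' _ _ this).symm }
  refine ⟨c, fun n => ?_⟩
  have := hc ⟨g n, Ideal.subset_span ⟨n, rfl⟩⟩
  simp only [LinearMap.coe_mk, AddHom.coe_mk] at this
  rw [← this, finsum_eq_single _ n fun m hm => by rw [hg, if_neg (Ne.symm hm), zero_mul], hg,
    if_pos rfl]

theorem not_oneSimple_of_df [IsSimpleRing R] (reg : ∀ a : R, ∃ x, a * x * a = a)
    (na : Split R) (df : ∀ x y : R, x * y = 1 → y * x = 1)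
    (inj : Rows R ∨ Cols R) : ¬ OneSimple R := by
  intro hS
  obtain ⟨F, B, T⟩ := exists_tow reg na df
  obtain ⟨g, hg⟩ : ∃ g : ℕ → R, g = fun n => F n - F (n + 1) := ⟨_, rfl⟩
  have gg : ∀ n m, g n * g m = if n = m then g n else 0 := hg ▸ T.gg
  have g1 : ∀ n, g n * g n = g n := fun n => by rw [gg, if_pos rfl]
  have fg : ∀ n m, F n * g m = if n ≤ m then g m else 0 := fun n m => hg ▸ (T.fg n m).1
  have gf : ∀ n m, g m * F n = if n ≤ m then g m else 0 := fun n m => hg ▸ (T.fg n m).2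
  have extr : ∀ x y : R, (∀ n, x * g n = y * g n) → x = y := fun x y => hg ▸ T.extr
  have extl : ∀ x y : R, (∀ n, g n * x = g n * y) → x = y := fun x y => hg ▸ T.extl
  have diag : ∀ t : ℕ → R, ∃ y, ∀ n, g n * y = g n * t n * g n ∧ y * g n = g n * t n * g n := by
    intro t
    rcases inj with h | h
    · obtain ⟨y, hy⟩ := h g (fun n => t n * g n) gg
      refine ⟨y, fun n => ⟨by rw [hy, mul_assoc], extl _ _ fun m => ?_⟩⟩
      rw [← mul_assoc, hy, mul_assoc, mul_assoc, ← mul_assoc _ (g n * t n), ← mul_assoc _ (g n), gg]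
      split_ifs with h <;> simp [h, mul_assoc]
    · obtain ⟨y, hy⟩ := h g (fun n => g n * t n) gg
      refine ⟨y, fun n => ⟨extr _ _ fun m => ?_, hy n⟩⟩
      rw [mul_assoc, hy, ← mul_assoc, ← mul_assoc, mul_assoc _ (g n), gg]
      split_ifs with h <;> simp [h, mul_assoc]
  have tri : ∀ r : R, ∃ y, ∀ n, y * g n = F (n + 1) * r * g n := by
    intro r
    rcases inj with h | h
    · obtain ⟨y, hy⟩ := h g (fun n => r * (1 - F n)) gg
      refine ⟨y, fun n => extl _ _ fun m => ?_⟩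
      rw [← mul_assoc, hy, ← mul_assoc, ← mul_assoc, ← mul_assoc, gf, mul_assoc, sub_mul, fg]
      split_ifs <;> first | omega | simp
    · exact h g (fun n => F (n + 1) * r) gg
  obtain ⟨a, ha⟩ : ∃ a : ℕ → R, a = fun n => B n - F (n + 1) := ⟨_, rfl⟩
  have a1 : ∀ n, g n * a n = a n := fun n => by
    obtain ⟨b1, b2, b3, b4, b5⟩ := T.b n
    simp only [hg, ha, mul_sub, sub_mul, b2, b5, T.l, T.id, sub_self, sub_zero]
  have a2 : ∀ n, a n * g n = a n := fun n => by
    obtain ⟨b1, b2, b3, b4, b5⟩ := T.b n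
    simp only [hg, ha, mul_sub, sub_mul, b3, b4, T.r, T.id, sub_self, sub_zero]
  have a3 : ∀ n, a n * a n = a n := fun n => by
    obtain ⟨b1, b2, b3, b4, b5⟩ := T.b n
    simp only [ha, mul_sub, sub_mul, b1, b4, b5, T.id, sub_self, sub_zero]
  have a4 : ∀ n, B n * a n = a n := fun n => by
    obtain ⟨b1, b2, b3, b4, b5⟩ := T.b n
    simp only [ha, mul_sub, b1, b4]
  obtain ⟨M, m1, m2⟩ := (eq_top_or_exists_le_coatom (bdd B g)).resolve_left (bdd_ne (hg ▸ T.n1))
  obtain ⟨N, n1, n2⟩ := (eq_top_or_exists_le_coatom (bdd (fun n => F (n + 1)) a)).resolve_left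
    (bdd_ne (ha ▸ T.n2))
  obtain ⟨r, hr⟩ := hS M N m1 n1
  obtain ⟨p, hp⟩ := diag a
  simp only [a1, a2] at hp
  obtain ⟨d, hd⟩ := diag fun _ => r
  obtain ⟨u, hu⟩ := tri r
  have hv : ∀ n, g n * (r - d - u) = g n * r * F (n + 1) := fun n => extr _ _ fun m => by
    rw [mul_assoc, sub_mul, sub_mul, (hd m).2, hu, mul_sub, mul_sub, ← mul_assoc, ← mul_assoc,
      ← mul_assoc, ← mul_assoc, ← mul_assoc, gg, gf, mul_assoc _ (F _), fg]
    split_ifs with c1 c2 c3 <;> first | omega | (subst c1; simp) | simp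
  choose z hz using fun n => reg (F (n + 1) * r * g n)
  choose w hw using fun n => reg (g n * r * F (n + 1))
  obtain ⟨h, hh⟩ := diag fun n => z n * F (n + 1) * r
  obtain ⟨k, hk⟩ := diag fun n => r * F (n + 1) * w n
  have e1 : u * h = u := extr _ _ fun n => by
    rw [mul_assoc, (hh n).2, ← mul_assoc, ← mul_assoc, hu]
    simpa only [mul_assoc] using hz n
  have e2 : k * (r - d - u) = r - d - u := extl _ _ fun n => by
    rw [← mul_assoc, (hk n).1, mul_assoc, hv]
    simpa only [mul_assoc] using hw n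
  have e3 : h ∈ M := m2 ⟨1, fun n => by
    rw [(hh n).2, ← (T.b n).2.2.2.1]
    simpa only [mul_assoc] using cp_one (g n * z n) (B n) (F (n + 1) * r * g n)⟩
  have e4 : k ∈ N := n2 ⟨1, fun n => by
    rw [← a1, ← mul_assoc, (hk n).2]
    simpa only [mul_assoc] using cp_one (g n * r) (F (n + 1)) (w n * g n * a n)⟩
  have e5 : 1 - p ∈ N := n2 ⟨0, fun n => by
    rw [sub_mul, one_mul]
    nth_rw 2 [← a1]
    rw [← mul_assoc, (hp n).2, a3, sub_self]
    exact cp_zero _ _⟩
  have e6 : p * (1 - k) * d ∈ M := m2 ⟨1, fun n => by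
    have e : p * (1 - k) * d * g n = 1 * B n * (a n * (1 - r * F (n + 1) * w n * g n) * (r * g n)) := by
      rw [mul_assoc, (hd n).2, mul_assoc (g n), ← mul_assoc, mul_assoc p, sub_mul, (hk n).2,
        one_mul, one_mul, ← mul_assoc (B n), ← mul_assoc (B n), a4, ← (hp n).2]
      noncomm_ring
    rw [e]
    exact cp_one _ _ _⟩
  refine n1.1 ((Ideal.eq_top_iff_one N).2 ((hr 1).1 ?_))
  have e7 : 1 * r = (1 - p) * r + p * k * r + p * (1 - k) * d + p * (1 - k) * u * h := by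
    rw [mul_assoc _ u, e1]
    have : p * (1 - k) * (r - d - u) = 0 := by rw [mul_assoc, sub_mul, e2, one_mul, sub_self, mul_zero]
    rw [← sub_eq_zero, ← this]
    noncomm_ring
  rw [e7]
  exact add_mem (add_mem (add_mem ((hr _).2 e5) ((hr _).2 (N.mul_mem_left p e4))) e6)
    (M.mul_mem_left _ e3)

end Pool.Agent.Lib.MP_57313b_al
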