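import Mathlib

/-!
Injective hulls, and comparison of uniform modules when there is only one indecomposable injective.
-/

namespace Pool.Agent.Lib.MP_57313b_al

variable (R : Type) [Ring R]

/-- any two nonzero cyclic submodules meet -/
def Unif (U : Type) [AddCommGroup U] [Module R U] : Prop :=
  ∀ x y : U, x ≠ 0 → y ≠ 0 → ∃ r r' : R, r • x = r' • y ∧ r • x ≠ 0

theorem exists_hull (U : Type) [AddCommGroup U] [Module R U] :
    ∃ (E : Type) (_ : AddCommGroup E) (_ : Module R E) (f : U →ₗ[R] E), Module.Injective R E ∧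
      Function.Injective f ∧ ∀ e : E, e ≠ 0 → ∃ (r : R) (u : U), r • e = f u ∧ u ≠ 0 := by
  obtain ⟨Q, _, _, ι, hQ, hι⟩ : ∃ (Q : Type) (_ : AddCommGroup Q) (_ : Module R Q) (ι : U →ₗ[R] Q),
      Module.Injective R Q ∧ Function.Injective ι :=
    ⟨(CategoryTheory.Injective.under (ModuleCat.of R U) : ModuleCat R), _, _,
      (CategoryTheory.Injective.ι (ModuleCat.of R U)).hom,
      Module.injective_module_of_injective_object _ _
        (inj := CategoryTheory.Injective.injective_under (ModuleCat.of R U)),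
      (ModuleCat.mono_iff_injective _).1 inferInstance⟩
  obtain ⟨E, h0, hE⟩ := zorn_le_nonempty₀
    {E : Submodule R Q | ∀ e ∈ E, e ≠ 0 → ∃ (r : R) (u : U), r • e = ι u ∧ u ≠ 0}
    (fun c hc hch y hy => ⟨sSup c, fun e he => by
      obtain ⟨z, hz, he⟩ := (Submodule.mem_sSup_of_directed ⟨y, hy⟩ hch.directedOn).1 he
      exact hc hz e he, fun _ h => le_sSup h⟩) (LinearMap.range ι) (by
      rintro _ ⟨u, rfl⟩ hu
      exact ⟨1, u, one_smul _ _, fun h => hu (by rw [h, map_zero])⟩)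
  obtain ⟨C, -, hC⟩ := zorn_le_nonempty₀ {C : Submodule R Q | Disjoint C E}
    (fun c hc hch y _ => ⟨sSup c, hch.directedOn.disjoint_sSup_left.2 hc, fun _ h => le_sSup h⟩)
    ⊥ disjoint_bot_left
  obtain ⟨h, hh⟩ := hQ.out (C.mkQ ∘ₗ E.subtype) (by
    rw [← LinearMap.ker_eq_bot, eq_bot_iff]
    intro x hx
    exact Subtype.ext (Submodule.disjoint_def.1 hC.prop x.1
      ((Submodule.Quotient.mk_eq_zero C).1 hx) x.2)) E.subtype
  have h1 : ∀ e ∈ E, h (C.mkQ e) = e := fun e he => hh ⟨e, he⟩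
  have h2 : LinearMap.range (h ∘ₗ C.mkQ) ≤ E := by
    refine hE.le_of_ge ?_ fun e he => ⟨e, h1 e he⟩
    rintro _ ⟨q, rfl⟩ hq
    have h3 : q ∉ C := fun h' => hq (by
      rw [LinearMap.comp_apply, Submodule.mkQ_apply, (Submodule.Quotient.mk_eq_zero C).2 h',
        map_zero])
    have h4 : ¬ Disjoint (C ⊔ Submodule.span R {q}) E := fun h' =>
      h3 (hC.le_of_ge h' le_sup_left (Submodule.mem_sup_right (Submodule.mem_span_singleton_self q)))
    rw [Submodule.disjoint_def] at h4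
    push Not at h4
    obtain ⟨e, e1, e2, e3⟩ := h4
    obtain ⟨c, hc, _, hz, rfl⟩ := Submodule.mem_sup.1 e1
    obtain ⟨r, rfl⟩ := Submodule.mem_span_singleton.1 hz
    obtain ⟨r', u, e4, e5⟩ := hE.prop _ e2 e3
    refine ⟨r' * r, u, ?_, e5⟩
    rw [← e4, ← h1 _ e2, map_add, C.mkQ_apply c, (Submodule.Quotient.mk_eq_zero C).2 hc, zero_add,
      mul_smul, map_smul, map_smul, LinearMap.comp_apply]
  refine ⟨E, inferInstance, inferInstance, ι.codRestrict E fun u => h0 ⟨u, rfl⟩, ⟨?_⟩,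
    fun u v huv => hι (congrArg Subtype.val huv), fun e he => ?_⟩
  · intro X Y _ _ _ _ f hf g
    obtain ⟨k, hk⟩ := hQ.out f hf (E.subtype ∘ₗ g)
    refine ⟨((h ∘ₗ C.mkQ).codRestrict E fun q => h2 ⟨q, rfl⟩) ∘ₗ k, fun x => Subtype.ext ?_⟩
    change h (C.mkQ (k (f x))) = g x
    rw [hk]
    exact h1 _ (g x).2
  · obtain ⟨r, u, e1, e2⟩ := hE.prop e.1 e.2 fun h => he (Subtype.ext h)
    exact ⟨r, u, Subtype.ext e1, e2⟩

/-- there are two non-isomorphic indecomposable injective modules -/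
def Two : Prop :=
  ∃ (M : Type) (_ : AddCommGroup M) (_ : Module R M) (N : Type) (_ : AddCommGroup N)
    (_ : Module R N),
    (Module.Injective R M ∧ Nontrivial M ∧ ∀ A B : Submodule R M, IsCompl A B → A = ⊥ ∨ A = ⊤) ∧
    (Module.Injective R N ∧ Nontrivial N ∧ ∀ A B : Submodule R N, IsCompl A B → A = ⊥ ∨ A = ⊤) ∧
    IsEmpty (M ≃ₗ[R] N)

/-- any two uniform modules have isomorphic nonzero cyclic submodules -/
def OneType : Prop :=
  ∀ (U : Type) [AddCommGroup U] [Module R U] (U' : Type) [AddCommGroup U'] [Module R U'],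
    Unif R U → Unif R U' → ∀ (u : U) (u' : U'), u ≠ 0 → u' ≠ 0 →
      ∃ r r' : R, r • u ≠ 0 ∧ ∀ c : R, c • r • u = 0 ↔ c • r' • u' = 0

variable {R}

lemma unif_hull {U E : Type} [AddCommGroup U] [Module R U] [AddCommGroup E] [Module R E]
    (hU : Unif R U) {f : U →ₗ[R] E} (h1 : Function.Injective f)
    (h2 : ∀ e : E, e ≠ 0 → ∃ (r : R) (u : U), r • e = f u ∧ u ≠ 0) : Unif R E := by
  intro x y hx hy
  obtain ⟨r, u, e1, e2⟩ := h2 x hx
  obtain ⟨r', u', e3, e4⟩ := h2 y hy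
  obtain ⟨q, q', e5, e6⟩ := hU u u' e2 e4
  refine ⟨q * r, q' * r', ?_, ?_⟩
  · rw [mul_smul, mul_smul, e1, e3, ← map_smul, ← map_smul, e5]
  · rw [mul_smul, e1, ← map_smul]
    exact fun h => e6 (h1 (h.trans (map_zero f).symm))

lemma Unif.indec {E : Type} [AddCommGroup E] [Module R E] (h : Unif R E) (A B : Submodule R E)
    (hc : IsCompl A B) : A = ⊥ ∨ A = ⊤ := by
  by_contra h'
  push Not at h'
  obtain ⟨x, x1, x2⟩ := (Submodule.ne_bot_iff _).1 h'.1
  obtain ⟨y, y1, y2⟩ := (Submodule.ne_bot_iff B).1 fun hB => h'.2 (eq_top_of_isCompl_bot (hB ▸ hc))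
  obtain ⟨r, r', e1, e2⟩ := h x y x2 y2
  exact e2 (Submodule.disjoint_def.1 hc.disjoint _ (A.smul_mem r x1) (e1 ▸ B.smul_mem r' y1))

theorem star_of_not_two (h : ¬ Two R) : OneType R := by
  intro U _ _ U' _ _ hU hU' u u' hu hu'
  obtain ⟨E, _, _, f, f1, f2, f3⟩ := exists_hull R U
  obtain ⟨E', _, _, g, g1, g2, g3⟩ := exists_hull R U'
  have a1 : f u ≠ 0 := fun h => hu (f2 (h.trans (map_zero f).symm))
  have a2 : g u' ≠ 0 := fun h => hu' (g2 (h.trans (map_zero g).symm))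
  obtain ⟨e⟩ : Nonempty (E ≃ₗ[R] E') := by
    by_contra h'
    exact h ⟨E, _, _, E', _, _, ⟨f1, ⟨_, _, a1⟩, (unif_hull hU f2 f3).indec⟩,
      ⟨g1, ⟨_, _, a2⟩, (unif_hull hU' g2 g3).indec⟩, not_nonempty_iff.1 h'⟩
  obtain ⟨r, r', e1, e2⟩ := unif_hull hU' g2 g3 (e (f u)) (g u') (by simpa using a1) a2
  refine ⟨r, r', fun h => e2 (by rw [← map_smul, ← map_smul, h, map_zero, map_zero]), fun c => ?_⟩
  rw [← map_eq_zero_iff f f2, ← map_eq_zero_iff g g2, ← map_eq_zero_iff e e.injective]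
  simp only [map_smul, e1]

end Pool.Agent.Lib.MP_57313b_al
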