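import Pool.Agent.Lib.MP_57313b_al.IsolProof

open Pool.Agent.Lib.MP_57313b_al

/-- Let `R` be a von Neumann regular ring that is right or left `ℵ₀`-injective. If all factor rings
of `R` are directly finite, `R` satisfies the isolation condition. If `R` is simple, not artinian
and directly finite, it has two non-isomorphic simple right modules and two non-isomorphic
indecomposable injective right modules. -/
theorem Pool.Agent.Lib.MP_57313b_al.injective_joined :
    ∀ (R : Type) [Ring R], (∀ a : R, ∃ x : R, a * x * a = a) → (AlephInj Rᵐᵒᵖ ∨ AlephInj R) →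
      ((∀ (I : TwoSidedIdeal R) (a b : R), a * b - 1 ∈ I → b * a - 1 ∈ I) →
        IsolationCondition R) ∧
      (IsSimpleRing R → ¬ IsArtinianRing R → (∀ a b : R, a * b = 1 → b * a = 1) →
        (∃ (M : Type) (_ : AddCommGroup M) (_ : Module Rᵐᵒᵖ M)
          (N : Type) (_ : AddCommGroup N) (_ : Module Rᵐᵒᵖ N),
          IsSimpleModule Rᵐᵒᵖ M ∧ IsSimpleModule Rᵐᵒᵖ N ∧ IsEmpty (M ≃ₗ[Rᵐᵒᵖ] N)) ∧
        ∃ (M : Type) (_ : AddCommGroup M) (_ : Module Rᵐᵒᵖ M)
          (N : Type) (_ : AddCommGroup N) (_ : Module Rᵐᵒᵖ N),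
          (Module.Injective Rᵐᵒᵖ M ∧ Indec Rᵐᵒᵖ M) ∧ (Module.Injective Rᵐᵒᵖ N ∧ Indec Rᵐᵒᵖ N) ∧
          IsEmpty (M ≃ₗ[Rᵐᵒᵖ] N)) := by
  intro R _ reg inj
  have inj' : Rows Rᵐᵒᵖ ∨ Cols Rᵐᵒᵖ := inj.imp rows_of_inj fun h g b hg => by
    obtain ⟨y, hy⟩ := rows_of_inj h (fun n => (g n).unop) (fun n => (b n).unop) fun n m => by
      rw [← MulOpposite.unop_mul, hg]
      split_ifs with h1 h2 h2 <;> simp_all
    exact ⟨MulOpposite.op y, fun n => MulOpposite.unop_injective (hy n)⟩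
  refine ⟨fun df => isolation reg df inj', fun h1 h2 df => ?_⟩
  have reg' : ∀ a : Rᵐᵒᵖ, ∃ x, a * x * a = a := fun a => by
    obtain ⟨x, hx⟩ := reg a.unop
    exact ⟨MulOpposite.op x, MulOpposite.unop_injective (by simpa [mul_assoc] using hx)⟩
  refine two_of_not_oneSimple (not_oneSimple_of_df reg' (fun e e0 e1 => split_idem reg'
    (fun h => h2 ?_) e0 e1) (fun x y h => MulOpposite.unop_injective
      (df _ _ (congrArg MulOpposite.unop h))) inj')
  have h7 : ∃ I : Ideal Rᵐᵒᵖ, IsAtom I := ⟨_, h⟩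
  have h8 : IsSemisimpleRing Rᵐᵒᵖ := (IsSimpleRing.tfae.out 2 0).1 h7
  have := isSemisimpleRing_mulOpposite_iff.1 h8
  infer_instance
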