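import Mathlib

/-!
The isolation condition for von Neumann regular rings (right modules are modules over `Rᵐᵒᵖ`).
-/

namespace Pool.Agent.Lib.MP_57313b_al

open MulOpposite

/-- A nonzero module with no direct summand other than `0` and itself. -/
def Indec (R M : Type) [Ring R] [AddCommGroup M] [Module R M] : Prop :=
  Nontrivial M ∧ ∀ A B : Submodule R M, IsCompl A B → A = ⊥ ∨ A = ⊤

/-- `N` is a point of the closed set of the Ziegler spectrum given by the ideal `I`: an
indecomposable injective right `R`-module with `N I = 0`. -/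
def IsPoint {R : Type} [Ring R] (I : TwoSidedIdeal R) (N : Type) [AddCommGroup N]
    [Module Rᵐᵒᵖ N] : Prop :=
  Module.Injective Rᵐᵒᵖ N ∧ Indec Rᵐᵒᵖ N ∧ ∀ a ∈ I, ∀ x : N, op a • x = 0

/-- The class of `e` in `R / I` is idempotent, `N e ≠ 0`, and every point `N'` of the closed set
given by `I` with `N' e ≠ 0` is isomorphic to `N`. -/
def Isolates {R : Type} [Ring R] (I : TwoSidedIdeal R) (e : R) (N : Type) [AddCommGroup N]
    [Module Rᵐᵒᵖ N] : Prop :=
  e * e - e ∈ I ∧ (∃ x : N, op e • x ≠ 0) ∧
    ∀ (N' : Type) [AddCommGroup N'] [Module Rᵐᵒᵖ N'], IsPoint I N' → (∃ x : N', op e • x ≠ 0) →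
      Nonempty (N' ≃ₗ[Rᵐᵒᵖ] N)

/-- The isolation condition: every isolated point of a closed set is isolated by an idempotent
`e` of `R / I` such that the right `R / I`-module `e (R / I)` is indecomposable. -/
def IsolationCondition (R : Type) [Ring R] : Prop :=
  ∀ (I : TwoSidedIdeal R) (N : Type) [AddCommGroup N] [Module Rᵐᵒᵖ N], IsPoint I N →
    (∃ e : R, Isolates I e N) → ∃ e : R, Isolates I e N ∧
      Indec (I.ringCon.Quotient)ᵐᵒᵖ
        (Ideal.span {op (I.ringCon.mk' e)} : Ideal (I.ringCon.Quotient)ᵐᵒᵖ)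

/-- `R` is left `ℵ₀`-injective: every homomorphism from a countably generated left ideal to `R`
is right multiplication by an element. -/
def AlephInj (R : Type) [Ring R] : Prop :=
  ∀ I : Ideal R, (∃ s : Set R, s.Countable ∧ Ideal.span s = I) →
    ∀ φ : I →ₗ[R] R, ∃ c : R, ∀ x : I, φ x = x * c

end Pool.Agent.Lib.MP_57313b_al
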