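import Pool.Agent.Lib.MP_57313b_al.Fin
import Pool.Agent.Lib.MP_57313b_al.Isol

/-!
Passage to factor rings and corners.
-/

namespace Pool.Agent.Lib.MP_57313b_al

open MulOpposite

variable {R K : Type} [Ring R] [Ring K]

lemma lift_orth (reg : ∀ a : R, ∃ x, a * x * a = a) {φ : R →+* K} (hφ : Function.Surjective φ)
    {g : ℕ → K} (hg : ∀ n m, g n * g m = if n = m then g n else 0) :
    ∃ G : ℕ → R, (∀ n m, G n * G m = if n = m then G n else 0) ∧ ∀ n, φ (G n) = g n := by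
  let T := fun n => {e : R // e * e = e ∧ ∀ m, n ≤ m → φ e * g m = g m ∧ g m * φ e = g m}
  have step : ∀ n (e : T n), ∃ f : T (n + 1), e.1 * f.1 = f.1 ∧ f.1 * e.1 = f.1 ∧
      φ (e.1 - f.1) = g n := by
    rintro n ⟨e, e1, e2⟩
    obtain ⟨b, hb⟩ := hφ (g n)
    obtain ⟨a, ha⟩ : ∃ a, a = e * b * e := ⟨_, rfl⟩
    have a1 : e * a = a := by rw [ha, ← mul_assoc, ← mul_assoc, e1]
    have a2 : a * e = a := by rw [ha, mul_assoc, e1]
    have a3 : φ a = g n := by rw [ha, map_mul, map_mul, hb, (e2 n le_rfl).1, (e2 n le_rfl).2]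
    obtain ⟨x, hx⟩ := reg a
    obtain ⟨i, hi⟩ : ∃ i, i = a * x * e := ⟨_, rfl⟩
    have i1 : i * a = a := by rw [hi, mul_assoc, a1, hx]
    have i2 : e * i = i := by rw [hi, ← mul_assoc, ← mul_assoc, a1]
    have i3 : i * e = i := by rw [hi, mul_assoc, e1]
    have i4 : i * i = i := by
      nth_rw 2 [hi]
      rw [← mul_assoc, ← mul_assoc, i1, hi]
    have g1 : g n * g n = g n := by rw [hg, if_pos rfl]
    have i5 : g n * φ i = φ i := by
      rw [hi, map_mul, map_mul, a3, ← mul_assoc, ← mul_assoc, g1]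
    obtain ⟨p, hp⟩ : ∃ p, p = i + a - a * i := ⟨_, rfl⟩
    have p1 : e * p = p := by rw [hp, mul_sub, mul_add, ← mul_assoc, a1, i2]
    have p2 : p * e = p := by rw [hp, sub_mul, add_mul, mul_assoc, a2, i3]
    have p3 : p * p = p := by
      have q1 : i * p = p := by rw [hp, mul_sub, mul_add, ← mul_assoc, i1, i4]
      nth_rw 1 [hp]
      rw [sub_mul, add_mul, mul_assoc, q1, add_sub_cancel_right]
    have p4 : φ p = g n := by rw [hp, map_sub, map_add, map_mul, a3, i5, add_sub_cancel_left]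
    refine ⟨⟨e - p, by rw [mul_sub, sub_mul, sub_mul, e1, p1, p2, p3, sub_self, sub_zero],
      fun m hm => ?_⟩, ?_, ?_, ?_⟩
    · rw [map_sub, p4, sub_mul, mul_sub, hg, hg, if_neg (by omega), if_neg (by omega),
        (e2 m (by omega)).1, (e2 m (by omega)).2, sub_zero]
      exact ⟨rfl, rfl⟩
    · change e * (e - p) = e - p
      rw [mul_sub, e1, p1]
    · change (e - p) * e = e - p
      rw [sub_mul, e1, p2]
    · change φ (e - (e - p)) = g n
      rw [sub_sub_cancel, p4]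
  choose f f1 f2 f3 using step
  let E : ∀ n, T n := fun n => Nat.rec ⟨1, one_mul 1, fun m _ => by simp⟩ f n
  have D : Desc fun n => (E n).1 := ⟨fun n => (E n).2.1, fun n => f1 n (E n), fun n => f2 n (E n)⟩
  exact ⟨_, D.gg, fun n => f3 n (E n)⟩

lemma inj_map (reg : ∀ a : R, ∃ x, a * x * a = a) {φ : R →+* K} (hφ : Function.Surjective φ)
    (h : Rows R ∨ Cols R) : Rows K ∨ Cols K := by
  refine h.imp (fun h g b hg => ?_) fun h g b hg => ?_
  all_goals
    obtain ⟨G, g1, g2⟩ := lift_orth reg hφ hg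
    choose c hc using fun n => hφ (b n)
    obtain ⟨y, hy⟩ := h G c g1
    exact ⟨φ y, fun n => by rw [← g2, ← hc, ← map_mul, ← map_mul, hy]⟩

lemma simple_of_oneSimple [Nontrivial R] (reg : ∀ a : R, ∃ x, a * x * a = a) (h : OneSimple R) :
    IsSimpleRing R := by
  refine .of_eq_bot_or_eq_top fun J => or_iff_not_imp_left.2 fun h0 => by_contra fun h1 => ?_
  obtain ⟨a, a1, a2 : a ≠ 0⟩ := SetLike.exists_of_lt (bot_lt_iff_ne_bot.2 h0 : ⊥ < J)
  obtain ⟨x, hx⟩ := reg a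
  obtain ⟨M, m1, m2⟩ := (eq_top_or_exists_le_coatom J.asIdeal).resolve_left fun h =>
    h1 (J.one_mem_iff.1 (TwoSidedIdeal.mem_asIdeal.1 (h ▸ Submodule.mem_top)))
  obtain ⟨N, n1, n2⟩ := (eq_top_or_exists_le_coatom (Ideal.span {1 - x * a})).resolve_left
    fun h => by
      obtain ⟨r, hr⟩ := Submodule.mem_span_singleton.1 ((Ideal.eq_top_iff_one _).1 h)
      have : x * a = 0 := by
        rw [← one_mul (x * a), ← hr, smul_eq_mul, mul_assoc, sub_mul, one_mul, mul_assoc x a,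
          ← mul_assoc a, hx, sub_self, mul_zero]
      exact a2 (by rw [← hx, mul_assoc, this, mul_zero])
  obtain ⟨r, hr⟩ := h M N m1 n1
  have := (hr _).1 (m2 (TwoSidedIdeal.mem_asIdeal.2 (J.mul_mem_right _ r (J.mul_mem_left x _ a1))))
  exact n1.1 ((Ideal.eq_top_iff_one N).2
    (by simpa using N.add_mem this (n2 (Ideal.mem_span_singleton_self _))))

lemma corner_atom (reg : ∀ a : K, ∃ x, a * x * a = a) (df : ∀ x y : K, x * y = 1 → y * x = 1)
    (inj : Rows K ∨ Cols K) {e : K} (h0 : e ≠ 0) (h1 : e * e = e)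
    (h : ∀ M N : Ideal K, IsCoatom M → IsCoatom N → 1 - e ∈ M → 1 - e ∈ N →
      ∃ r : K, ∀ c : K, c * r ∈ M ↔ c ∈ N) :
    ∃ f : K, f ≠ 0 ∧ f * f = f ∧ e * f = f ∧ IsAtom (Ideal.span {f}) := by
  obtain ⟨C, _, ι, i1, i2, i3⟩ : ∃ (C : Type) (_ : Ring C) (ι : C →ₙ+* K), Function.Injective ι ∧
      ι 1 = e ∧ ∀ x, ∃ c, ι c = e * x * e :=
    have h2 : IsIdempotentElem e := h1
    ⟨h2.Corner, inferInstance,
      { toFun := Subtype.val
        map_mul' := fun _ _ => rfl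
        map_zero' := rfl
        map_add' := fun _ _ => rfl }, Subtype.val_injective, rfl, fun x => ⟨⟨_, x, rfl⟩, rfl⟩⟩
  have l : ∀ c, e * ι c = ι c := fun c => by rw [← i2, ← map_mul, one_mul]
  have r : ∀ c, ι c * e = ι c := fun c => by rw [← i2, ← map_mul, mul_one]
  have : Nontrivial C := ⟨1, 0, fun h => h0 (by rw [← i2, h, map_zero])⟩
  have reg' : ∀ a : C, ∃ x, a * x * a = a := fun a => by
    obtain ⟨x, hx⟩ := reg (ι a)
    obtain ⟨c, hc⟩ := i3 x
    exact ⟨c, i1 (by rw [map_mul, map_mul, hc, ← mul_assoc, ← mul_assoc, r, mul_assoc, l, hx])⟩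
  have ext : ∀ M : Ideal C, IsCoatom M → ∃ N : Ideal K, IsCoatom N ∧ 1 - e ∈ N ∧
      ∀ c, ι c ∈ N ↔ c ∈ M := by
    intro M hM
    let L : Ideal K :=
      { carrier := {x | ∀ y c, ι c = e * y * x * e → c ∈ M}
        zero_mem' := fun y c hc => by
          rw [i1 (hc.trans (by simp : _ = ι 0))]
          exact M.zero_mem
        add_mem' := fun {a b} ha hb y c hc => by
          obtain ⟨p, hp⟩ := i3 (y * a)
          obtain ⟨q, hq⟩ := i3 (y * b)
          rw [i1 (hc.trans (by rw [map_add, hp, hq]; noncomm_ring : _ = ι (p + q)))]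
          exact M.add_mem (ha y p (by rw [hp, ← mul_assoc])) (hb y q (by rw [hq, ← mul_assoc]))
        smul_mem' := fun a x hx y c hc => hx (y * a) c (by simpa only [smul_eq_mul, mul_assoc] using hc) }
    obtain ⟨N, n1, n2⟩ := (eq_top_or_exists_le_coatom L).resolve_left fun h => hM.1
      ((Ideal.eq_top_iff_one M).2 ((Ideal.eq_top_iff_one L).1 h 1 1 (by simp [i2, h1])))
    have n3 : 1 - e ∈ N := n2 fun y c hc => by
      rw [i1 (hc.trans (by rw [mul_assoc, sub_mul, h1, one_mul, sub_self, mul_zero, map_zero] :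
        _ = ι 0))]
      exact M.zero_mem
    have n4 : ∀ c ∈ M, ι c ∈ N := fun c hc => n2 fun y d hd => by
      obtain ⟨p, hp⟩ := i3 y
      rw [i1 (hd.trans (by rw [map_mul, hp, mul_assoc, r, mul_assoc _ e, l] : _ = ι (p * c)))]
      exact M.mul_mem_left p hc
    refine ⟨N, n1, n3, fun c => ⟨fun hc => by_contra fun h2 => n1.1 ?_, n4 c⟩⟩
    obtain ⟨b, hb⟩ := coatom_inv hM h2
    have := N.sub_mem (N.mul_mem_left (ι b) hc) (n4 _ hb)
    rw [map_sub, map_mul, sub_sub_cancel, i2] at this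
    simpa [Ideal.eq_top_iff_one] using N.add_mem n3 this
  have one : OneSimple C := fun M N hM hN => by
    obtain ⟨M', m1, m2, m3⟩ := ext M hM
    obtain ⟨N', n1, n2, n3⟩ := ext N hN
    obtain ⟨s, hs⟩ := h M' N' m1 n1 m2 n2
    obtain ⟨t, ht⟩ := i3 s
    refine ⟨t, fun c => ?_⟩
    rw [← m3, ← n3, ← hs, map_mul, ht, ← mul_assoc, ← mul_assoc, r,
      ← M'.add_mem_iff_left (M'.mul_mem_left (ι c * s) m2), ← mul_add, add_sub_cancel, mul_one]
  have := simple_of_oneSimple reg' one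
  by_contra hno
  push Not at hno
  refine not_oneSimple_of_df reg' (fun f f0 f1 => ?_) (fun x y hxy => i1 ?_) ?_ one
  · have f2 : ι f ≠ 0 := fun h => f0 (i1 (h.trans (map_zero ι).symm))
    have f3 : ι f * ι f = ι f := by rw [← map_mul, f1]
    obtain ⟨p, p0, p1, p2, p3, p4⟩ := split_idem reg (hno _ f2 f3 (l f)) f2 f3
    obtain ⟨q, hq⟩ := i3 p
    have hq : ι q = p := by rw [hq, ← p3, ← mul_assoc, l, p3, ← p4, mul_assoc, r]
    subst hq
    exact ⟨q, fun h => p0 (by rw [h, map_zero]), fun h => p1 (by rw [h]),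
      i1 (by rw [map_mul, p2]), i1 (by rw [map_mul, p3]), i1 (by rw [map_mul, p4])⟩
  · have := df (ι x + (1 - e)) (ι y + (1 - e)) (by
      simp only [mul_add, add_mul, mul_sub, sub_mul, mul_one, one_mul, l, r, h1, ← map_mul, hxy, i2]
      abel)
    simp only [mul_add, add_mul, mul_sub, sub_mul, mul_one, one_mul, l, r, h1, ← map_mul,
      sub_self, add_zero, sub_zero, zero_add] at this
    rw [i2, ← sub_eq_zero, ← sub_eq_zero.2 this]
    abel
  · refine inj.imp (fun h g b hg => ?_) fun h g b hg => ?_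
    all_goals
      obtain ⟨y, hy⟩ := h (fun n => ι (g n)) (fun n => ι (b n)) fun n m => by
        rw [← map_mul, hg]
        split_ifs <;> simp
      obtain ⟨z, hz⟩ := i3 y
      refine ⟨z, fun n => i1 ?_⟩
    · rw [map_mul, hz, ← mul_assoc, ← mul_assoc, r, hy, ← map_mul, r]
    · rw [map_mul, hz, mul_assoc, l, mul_assoc, hy, ← map_mul, l]

lemma hull_pt (reg : ∀ a : R, ∃ x, a * x * a = a) {M : Ideal R} (hM : IsCoatom M) :
    ∃ (E : Type) (_ : AddCommGroup E) (_ : Module R E) (x : E), Module.Injective R E ∧ Unif R E ∧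
      (∀ c : R, c • x = 0 ↔ c ∈ M) ∧
      ∀ a : R, (∀ u v, u * a * v ∈ M) → ∀ y : E, a • y = 0 := by
  obtain ⟨E, _, _, f, f1, f2, f3⟩ := exists_hull R (R ⧸ M)
  refine ⟨E, _, _, f (pt M), f1, unif_hull (unif_pt hM) f2 f3, fun c => by
    rw [← map_smul, map_eq_zero_iff f f2, smul_pt], fun a ha y => by_contra fun h => ?_⟩
  obtain ⟨r, u, e1, e2⟩ := f3 _ h
  obtain ⟨z, hz⟩ := reg (r * a)
  obtain ⟨t, rfl⟩ := gen_pt u
  refine e2 (f2 ?_)
  rw [map_zero, ← e1, ← mul_smul, ← hz, mul_smul, mul_smul r a, e1, ← map_smul, ← mul_smul,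
    smul_pt.2 (by simpa only [mul_assoc] using ha r (z * t)), map_zero]

lemma rel_of_iso {E E' : Type} [AddCommGroup E] [Module R E] [AddCommGroup E'] [Module R E']
    {M N : Ideal R} (hN : IsCoatom N) (hM : M ≠ ⊤) (hE : Unif R E) {x : E} {y : E'}
    (hx : ∀ c : R, c • x = 0 ↔ c ∈ M) (hy : ∀ c : R, c • y = 0 ↔ c ∈ N) (e : E' ≃ₗ[R] E) :
    ∃ r : R, ∀ c : R, c * r ∈ M ↔ c ∈ N := by
  have hy' : ∀ c : R, c • e y = 0 ↔ c ∈ N := fun c => by
    rw [← map_smul, map_eq_zero_iff e e.injective, hy]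
  obtain ⟨r, r', h1, h2⟩ := hE (e y) x
    (fun h => hN.1 ((Ideal.eq_top_iff_one N).2 ((hy' 1).1 (by rw [h, smul_zero]))))
    (fun h => hM ((Ideal.eq_top_iff_one M).2 ((hx 1).1 (by rw [h, smul_zero]))))
  obtain ⟨q, hq⟩ := coatom_inv hN (mt (hy' r).2 h2)
  rw [← hy', sub_smul, one_smul, sub_eq_zero] at hq
  exact ⟨q * r', fun c => by rw [← hx, mul_smul, mul_smul, ← h1, ← mul_smul q, hq, hy']⟩

theorem isolation (reg : ∀ a : R, ∃ x, a * x * a = a)
    (df : ∀ (I : TwoSidedIdeal R) (a b : R), a * b - 1 ∈ I → b * a - 1 ∈ I)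
    (inj : Rows Rᵐᵒᵖ ∨ Cols Rᵐᵒᵖ) : IsolationCondition R := by
  rintro I N _ _ hN ⟨e, e1, e2, e3⟩
  have reg' : ∀ a : Rᵐᵒᵖ, ∃ x, a * x * a = a := fun a => by
    obtain ⟨x, hx⟩ := reg a.unop
    exact ⟨op x, unop_injective (by simpa [mul_assoc] using hx)⟩
  let φ : Rᵐᵒᵖ →+* (I.ringCon.Quotient)ᵐᵒᵖ := RingHom.op I.ringCon.mk'
  have hφ : Function.Surjective φ := fun a => by
    obtain ⟨b, hb⟩ := I.ringCon.mk'_surjective a.unop
    exact ⟨op b, unop_injective hb⟩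
  have ker : ∀ a b : R, φ (op a) = φ (op b) ↔ a - b ∈ I := fun a b =>
    op_inj.trans (I.ringCon.eq.trans (I.rel_iff a b))
  have point : ∀ (M : Ideal (I.ringCon.Quotient)ᵐᵒᵖ) (f : R), IsCoatom M → 1 - φ (op f) ∈ M →
      ∃ (E : Type) (_ : AddCommGroup E) (_ : Module Rᵐᵒᵖ E) (x : E), IsPoint I E ∧
        Unif Rᵐᵒᵖ E ∧ (∀ c : Rᵐᵒᵖ, c • x = 0 ↔ c ∈ M.comap φ) ∧ op f • x ≠ 0 := by
    intro M f hM hf
    obtain ⟨E, _, _, x, x1, x2, x3, x4⟩ := hull_pt reg'
      (@Ideal.comap_isMaximal_of_surjective _ _ _ _ _ _ _ φ hφ M ⟨hM⟩).out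
    have x5 : op f • x ≠ 0 := fun h => hM.1 ((Ideal.eq_top_iff_one M).2
      (by simpa using M.add_mem hf ((x3 _).1 h)))
    refine ⟨E, _, _, x, ⟨x1, ⟨⟨x, 0, fun h => x5 (by rw [h, smul_zero])⟩, x2.indec⟩,
      fun a ha => x4 _ fun u v => ?_⟩, x2, x3, x5⟩
    rw [Ideal.mem_comap, map_mul, map_mul, (ker a 0).2 (by simpa using ha), op_zero, map_zero,
      mul_zero, zero_mul]
    exact M.zero_mem
  obtain ⟨f, f0, f1, f2, f3⟩ := corner_atom (e := φ (op e)) (fun a => by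
      obtain ⟨a, rfl⟩ := hφ a
      obtain ⟨x, hx⟩ := reg' a
      exact ⟨φ x, by rw [← map_mul, ← map_mul, hx]⟩) (fun a b hab => by
      obtain ⟨a, rfl⟩ := hφ a
      obtain ⟨b, rfl⟩ := hφ b
      rw [← map_mul, ← map_one φ] at hab ⊢
      exact (ker _ _).2 (df I _ _ ((ker _ _).1 hab))) (inj_map reg' hφ inj) (fun h => by
      obtain ⟨x, hx⟩ := e2
      exact hx (hN.2.2 e (by simpa using (ker e 0).1 (h.trans (map_zero φ).symm)) x))
    (by rw [← map_mul]; exact (ker _ _).2 e1) (fun M M' m1 m2 m3 m4 => by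
      obtain ⟨E, _, _, x, x1, x2, x3, x4⟩ := point M e m1 m3
      obtain ⟨E', _, _, y, y1, -, y3, y4⟩ := point M' e m2 m4
      obtain ⟨p⟩ := e3 E x1 ⟨x, x4⟩
      obtain ⟨q⟩ := e3 E' y1 ⟨y, y4⟩
      obtain ⟨r, hr⟩ := rel_of_iso
        (@Ideal.comap_isMaximal_of_surjective _ _ _ _ _ _ _ φ hφ M' ⟨m2⟩).out
        (Ideal.comap_ne_top φ m1.1) x2 x3 y3 (q.trans p.symm)
      refine ⟨φ r, fun c => ?_⟩
      obtain ⟨c, rfl⟩ := hφ c
      rw [← map_mul]
      exact hr c)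
  obtain ⟨f, rfl⟩ := hφ f
  have key : ∀ (N' : Type) [AddCommGroup N'] [Module Rᵐᵒᵖ N'], IsPoint I N' →
      (∃ x : N', op f.unop • x ≠ 0) → Nonempty (N' ≃ₗ[Rᵐᵒᵖ] N) := by
    rintro N' _ _ h ⟨x, hx⟩
    refine e3 N' h ⟨f • x, fun h' => hx ?_⟩
    have := h.2.2 _ ((ker (f.unop * e) f.unop).1 (by rw [op_mul, map_mul]; exact f2)) x
    rwa [op_sub, sub_smul, op_mul, mul_smul, op_unop, h', zero_sub, neg_eq_zero] at this
  refine ⟨f.unop, ⟨(ker _ _).1 (by rw [op_mul, map_mul]; exact f1), ?_, key⟩, ?_⟩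
  · obtain ⟨M, m1, m2⟩ := (eq_top_or_exists_le_coatom (Ideal.span {1 - φ f})).resolve_left
      fun h => by
        obtain ⟨r, hr⟩ := Submodule.mem_span_singleton.1 ((Ideal.eq_top_iff_one _).1 h)
        exact f0 (by rw [← one_mul (φ f), ← hr, smul_eq_mul, mul_assoc, sub_mul, f1, one_mul,
          sub_self, mul_zero])
    obtain ⟨E, _, _, x, x1, -, -, x4⟩ := point M f.unop m1 (m2 (Ideal.mem_span_singleton_self _))
    obtain ⟨p⟩ := key E x1 ⟨x, x4⟩
    exact ⟨p x, by rwa [← map_smul, map_ne_zero_iff p p.injective]⟩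
  · have := isSimpleModule_iff_isAtom.2 f3
    change Indec _ (Ideal.span {φ f})
    exact ⟨Submodule.nontrivial_iff_ne_bot.2 f3.1, fun A _ _ => this.eq_bot_or_eq_top A⟩

end Pool.Agent.Lib.MP_57313b_al
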