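import Pool.Agent.Lib.MP_57313b_al.Zf.Final
import Pool.Agent.Lib.MP_57313b_al.Isol

/-! The example fails the isolation condition (a check; no hand-in imports this file). -/

namespace Pool.Agent.Lib.MP_57313b_al

open MulOpposite

theorem atom_of_indec {S : Type} [Ring S] (reg : ∀ a : S, ∃ x, a * x * a = a) (J : Ideal S)
    (h : Indec S J) : IsAtom J := by
  refine ⟨fun e => ?_, fun K hK => by_contra fun n => ?_⟩
  · subst e
    exact not_subsingleton_iff_nontrivial.2 h.1 inferInstance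
  obtain ⟨a, a1, a2⟩ := (Submodule.ne_bot_iff K).1 n
  obtain ⟨x, hx⟩ := reg a
  let f : J →ₗ[S] J := (LinearMap.toSpanSingleton S J ⟨x * a, J.mul_mem_left x (hK.le a1)⟩).comp J.subtype
  have hf : ∀ y : J, (f y : S) = y * (x * a) := fun y => rfl
  have id : IsIdempotentElem f := LinearMap.ext fun y => Subtype.ext (by
    change ((f (f y) : J) : S) = f y
    rw [hf, hf, mul_assoc, mul_assoc x a, ← mul_assoc a, hx])
  rcases h.2 _ _ (LinearMap.IsIdempotentElem.isCompl id) with e | e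
  · have := LinearMap.congr_fun (LinearMap.range_eq_bot.1 e) ⟨a, hK.le a1⟩
    exact a2 (hx.symm.trans ((mul_assoc _ _ _).trans (congrArg Subtype.val this)))
  · refine hK.not_ge fun y hy => ?_
    obtain ⟨z, hz⟩ := LinearMap.range_eq_top.1 e ⟨y, hy⟩
    rw [← show (z : S) * (x * a) = y from congrArg Subtype.val hz]
    exact K.mul_mem_left _ (K.mul_mem_left _ a1)

theorem not_isol : ∃ (R : Type) (_ : Ring R), (∀ a : R, ∃ x : R, a * x * a = a) ∧
    ¬ IsolationCondition R := by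
  obtain ⟨R, _, h1, h2, h3, M, _, _, h4, h5, h6, h7⟩ := Zf.example_exists
  refine ⟨R, _, h1, fun h => h3 ?_⟩
  obtain ⟨e, -, he⟩ := h ⊥ M ⟨h4, ⟨h5, h6⟩, fun a ha x => by
    rw [(TwoSidedIdeal.mem_bot _).1 ha]; simp⟩ ⟨1, by simp, by simpa using exists_ne (0 : M),
      fun N _ _ k _ => h7 N k.1 k.2.1.1 k.2.1.2⟩
  let π := (⊥ : TwoSidedIdeal R).ringCon.mk'
  have hb : Function.Bijective π := ⟨fun a b k => by
    have := (TwoSidedIdeal.rel_iff ⊥ a b).1 ((RingCon.eq _).1 k)
    exact sub_eq_zero.1 ((TwoSidedIdeal.mem_bot _).1 this), fun q => Quotient.exists_rep q⟩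
  let E := RingEquiv.ofBijective π hb
  have : IsSimpleRing (⊥ : TwoSidedIdeal R).ringCon.Quotient := .of_ringEquiv E h2
  have at' := atom_of_indec (fun a => by
    obtain ⟨b, hb'⟩ := hb.2 a.unop
    obtain ⟨x, hx⟩ := h1 b
    exact ⟨op (π x), unop_injective (by simp [← hb', ← mul_assoc, ← map_mul, hx])⟩) _ he
  have s : IsSemisimpleRing ((⊥ : TwoSidedIdeal R).ringCon.Quotient)ᵐᵒᵖ :=
    (IsSimpleRing.tfae.out 2 0).1 (Exists.intro _ at')
  have := isSemisimpleRing_mulOpposite_iff.1 s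
  have := E.symm.isSemisimpleRing
  infer_instance

end Pool.Agent.Lib.MP_57313b_al
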