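import Pool.Agent.Lib.MP_57313b_al.Classes
import Pool.Agent.Lib.MP_57313b_al.Fin

/-!
A maximal one-sided ideal omitting infinitely many terms of a sequence.
-/

namespace Pool.Agent.Lib.MP_57313b_al

open Finset Filter

variable {R : Type} [Ring R]

theorem exists_omit [IsSimpleRing R] (reg : ∀ a : R, ∃ x, a * x * a = a) {a : ℕ → R}
    (ha : ∀ n, a n ≠ 0) : ∃ M : Ideal R, IsCoatom M ∧ ∃ᶠ n in atTop, a n ∉ M := by
  have step : ∀ (k : ℕ) (w : {w : R // ∃ᶠ n in atTop, a n * w ≠ 0}),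
      ∃ v : {w : R // ∃ᶠ n in atTop, a n * w ≠ 0}, (∃ z, v.1 = w.1 * z) ∧
        ∃ n ≥ k, ∃ y, (1 - y * a n) * v.1 = 0 := by
    rintro k ⟨w, hw⟩
    obtain ⟨n, n1, n2⟩ := frequently_atTop.1 hw k
    obtain ⟨z, hz⟩ := reg (a n * w)
    obtain ⟨e, he⟩ : ∃ e, e = z * (a n * w) := ⟨_, rfl⟩
    have e1 : a n * w * e = a n * w := by rw [he, ← mul_assoc, hz]
    have e2 : e * e = e := by
      nth_rw 1 [he]
      rw [mul_assoc, e1, he]
    obtain ⟨c, p, q, hc⟩ := cp_simple (f := e) fun h => n2 (by rw [← e1, h, mul_zero])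
    obtain ⟨x, hx⟩ : ∃ x, ∃ᶠ m in atTop, a m * (w * ((1 + (1 - e) * x) * e)) ≠ 0 := by
      by_contra h
      simp only [not_exists, not_frequently, not_not] at h
      refine hw (((h 0).and ((eventually_all_finset (range c)).2 fun i _ => h (p i))).mono ?_)
      rintro m ⟨h1, h2⟩ h3
      refine h3 ?_
      rw [mul_zero, add_zero, one_mul] at h1
      have h4 : a m * w = a m * w * (1 - e) * ∑ i ∈ range c, p i * e * q i := by
        rw [← hc, mul_one, mul_sub, mul_one, mul_assoc _ w, h1, sub_zero]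
      rw [h4, mul_sum]
      refine sum_eq_zero fun i hi => ?_
      have := h2 i hi
      rw [add_mul, one_mul, mul_add, mul_add, h1, zero_add] at this
      simp only [← mul_assoc] at this ⊢
      rw [this, zero_mul]
    refine ⟨⟨_, hx⟩, ⟨_, rfl⟩, n, n1, w * ((1 + (1 - e) * x) * e) * z, ?_⟩
    have e3 : a n * (w * ((1 + (1 - e) * x) * e)) = a n * w := by
      rw [← mul_assoc, add_mul, one_mul, mul_add, e1, ← mul_assoc, ← mul_assoc, mul_sub, e1]
      simp
    change (1 - _) * (w * _) = 0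
    rw [sub_mul, one_mul, mul_assoc _ (a n), e3, mul_assoc _ z, ← he, mul_assoc, mul_assoc, e2,
      sub_self]
  choose f f1 f2 using step
  let E : ℕ → {w : R // ∃ᶠ n in atTop, a n * w ≠ 0} := fun n =>
    Nat.rec ⟨1, Frequently.of_forall (by simpa using ha)⟩ f n
  have h1 : ∀ k, ∃ z, (E (k + 1)).1 = (E k).1 * z := fun k => f1 k (E k)
  obtain ⟨M, m1, m2⟩ := (eq_top_or_exists_le_coatom _).resolve_left (annI_ne (e := fun k => (E k).1) h1 fun k h => by
    obtain ⟨n, hn⟩ := (E k).2.exists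
    exact hn (by rw [h, mul_zero]))
  refine ⟨M, m1, frequently_atTop.2 fun k => ?_⟩
  obtain ⟨n, n1, y, hy⟩ := f2 k (E k)
  refine ⟨n, n1, fun h => m1.1 ((Ideal.eq_top_iff_one M).2 ?_)⟩
  simpa using M.add_mem (m2 ⟨k + 1, hy⟩) (M.mul_mem_left y h)

theorem not_oneSimple_of_omit [IsSimpleRing R] (reg : ∀ a : R, ∃ x, a * x * a = a) {a : ℕ → R}
    (ha : ∀ n, a n ≠ 0) {I : Ideal R} (h0 : I ≠ ⊤) (h : ∀ r, ∀ᶠ n in atTop, a n * r ∈ I) :
    ¬ OneSimple R := by
  intro hS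
  obtain ⟨N, n1, n2⟩ := exists_omit reg ha
  obtain ⟨M, m1, m2⟩ := (eq_top_or_exists_le_coatom I).resolve_left h0
  obtain ⟨r, hr⟩ := hS M N m1 n1
  exact n2 ((h r).mono fun n hn h' => h' ((hr _).1 (m2 hn)))

lemma exists_asc (reg : ∀ a : R, ∃ x, a * x * a = a) (h : ¬ IsArtinianRing R) :
    ∃ e : ℕ → R, ∀ n, e (n + 1) ≠ e n ∧ e n * e n = e n ∧ e (n + 1) * e n = e n ∧
      e n * e (n + 1) = e n := by
  obtain ⟨L, hL⟩ : ∃ L : Ideal R, ∀ e ∈ L, e * e = e → ∃ x ∈ L, x * e ≠ x := by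
    by_contra h'
    push Not at h'
    have : IsSemisimpleRing R := (isSemisimpleModule_iff _ _).2 ⟨fun L => by
      obtain ⟨e, e1, e2, e3⟩ := h' L
      refine ⟨Ideal.span {1 - e}, Submodule.disjoint_def.2 fun x x1 x2 => ?_,
        codisjoint_iff.2 ((Ideal.eq_top_iff_one _).2 ?_)⟩
      · obtain ⟨r, rfl⟩ := Submodule.mem_span_singleton.1 x2
        rw [← e3 _ x1, smul_eq_mul, mul_assoc, sub_mul, e2, one_mul, sub_self, mul_zero]
      · simpa using Submodule.add_mem_sup e1 (Ideal.mem_span_singleton_self (1 - e))⟩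
    exact h inferInstance
  have step : ∀ e : {e : R // e ∈ L ∧ e * e = e}, ∃ f : {e : R // e ∈ L ∧ e * e = e},
      f.1 ≠ e.1 ∧ f.1 * e.1 = e.1 ∧ e.1 * f.1 = e.1 := by
    rintro ⟨e, e1, e2⟩
    obtain ⟨x, x1, x2⟩ := hL e e1 e2
    obtain ⟨b, hb⟩ : ∃ b, b = x * (1 - e) := ⟨_, rfl⟩
    obtain ⟨y, hy⟩ := reg b
    have b1 : b * e = 0 := by rw [hb, mul_assoc, sub_mul, e2, one_mul, sub_self, mul_zero]
    have b2 : b ∈ L := by
      rw [hb, mul_sub, mul_one]
      exact L.sub_mem x1 (L.mul_mem_left x e1)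
    obtain ⟨f, hf⟩ : ∃ f, f = (1 - e) * y * b := ⟨_, rfl⟩
    have f1 : b * f = b := by
      rw [hf, ← mul_assoc, ← mul_assoc, mul_sub, b1, mul_one, sub_zero, hy]
    have f2 : f * e = 0 := by rw [hf, mul_assoc, b1, mul_zero]
    have f3 : e * f = 0 := by
      rw [hf, ← mul_assoc, ← mul_assoc, mul_sub, e2, mul_one, sub_self, zero_mul, zero_mul]
    have f4 : f * f = f := by
      nth_rw 1 [hf]
      rw [mul_assoc, f1, hf]
    refine ⟨⟨e + f, L.add_mem e1 (hf ▸ L.mul_mem_left _ b2), by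
      simp only [add_mul, mul_add, e2, f2, f3, f4, add_zero, zero_add]⟩, fun h => x2 ?_, ?_, ?_⟩
    · have h2 : f = 0 := by simpa using h
      rw [h2, mul_zero, hb, mul_sub, mul_one, eq_comm, sub_eq_zero] at f1
      exact f1.symm
    · simp only [add_mul, e2, f2, add_zero]
    · simp only [mul_add, e2, f3, add_zero]
  choose f f1 f2 f3 using step
  refine ⟨fun n => (f^[n] ⟨0, L.zero_mem, mul_zero 0⟩).1, fun n => ?_⟩
  simp only [Function.iterate_succ_apply']
  exact ⟨f1 _, (f^[n] _).2.2, f2 _, f3 _⟩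

theorem not_oneSimple_of_quasi [IsSimpleRing R] (reg : ∀ a : R, ∃ x, a * x * a = a)
    (A : Subring R) (hA : ∀ a : A, ∃ x : A, a * x * a = a) (h0 : ¬ IsArtinianRing A)
    {K : Type} [Ring K] [Nontrivial K] [IsArtinianRing K] (φ : A →+* K)
    (hφ : Function.Surjective φ)
    (h : ∀ r : R, ∃ s : Finset R, ∀ a : A, r * a ∈ Submodule.span A (s : Set R)) :
    ¬ OneSimple Rᵐᵒᵖ := by
  obtain ⟨e, he⟩ := exists_asc hA h0
  let J : Ideal Rᵐᵒᵖ :=
    { carrier := {x | ∃ p : A, φ p = 0 ∧ p * x.unop = x.unop}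
      zero_mem' := ⟨0, map_zero φ, by simp⟩
      smul_mem' := fun c x ⟨p, p1, p2⟩ => ⟨p, p1, by simp [← mul_assoc, p2]⟩
      add_mem' := by
        rintro x y ⟨p, p1, p2⟩ ⟨q, q1, q2⟩
        obtain ⟨u, hu⟩ := hA p
        obtain ⟨v, hv⟩ := hA ((1 - p * u) * q)
        have a1 : (p * u + (1 - p * u) * q * v * (1 - p * u)) * p = p := by
          rw [add_mul, hu, mul_assoc _ _ p, sub_mul _ _ p, hu, one_mul, sub_self, mul_zero, add_zero]
        have a2 : (p * u + (1 - p * u) * q * v * (1 - p * u)) * q = q := by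
          rw [add_mul, mul_assoc _ (1 - p * u) q, hv, sub_mul, one_mul, add_sub_cancel]
        refine ⟨p * u + (1 - p * u) * q * v * (1 - p * u), by simp [p1, q1], ?_⟩
        rw [MulOpposite.unop_add, mul_add, ← p2, ← q2, ← mul_assoc, ← mul_assoc, ← A.coe_mul,
          ← A.coe_mul, a1, a2] }
  have j1 : ∀ (p : A) (x : R), φ p = 0 → MulOpposite.op (p * x) ∈ J := fun p x hp => by
    obtain ⟨u, hu⟩ := hA p
    exact ⟨p * u, by simp [hp], by rw [MulOpposite.unop_op, ← mul_assoc, ← A.coe_mul, hu]⟩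
  have j2 : ∀ (p : A) (x : R), MulOpposite.op x ∈ J → MulOpposite.op (p * x) ∈ J := by
    rintro p x ⟨q, q1, q2⟩
    rw [MulOpposite.unop_op] at q2
    rw [← q2, ← mul_assoc, ← A.coe_mul]
    exact j1 _ _ (by simp [q1])
  refine not_oneSimple_of_omit (fun a => ?_)
    (a := fun n => MulOpposite.op ((e (n + 1) - e n : A) : R)) (fun n hn => (he n).1 ?_) (I := J)
    (fun hJ => ?_) fun r => ?_
  · obtain ⟨x, hx⟩ := reg a.unop
    exact ⟨MulOpposite.op x, MulOpposite.unop_injective (by simpa [mul_assoc] using hx)⟩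
  · exact sub_eq_zero.1 (Subtype.ext (MulOpposite.op_injective hn))
  · obtain ⟨p, p1, p2⟩ := (Ideal.eq_top_iff_one J).1 hJ
    have : p = 1 := Subtype.ext (by simpa using p2)
    simp [this] at p1
  obtain ⟨s, hs⟩ := h r.unop
  let X : ℕ → Submodule K (s → K) := fun k =>
    { carrier := {κ | ∃ α : s → A, (∀ i, φ (α i) = κ i) ∧
        MulOpposite.op ((∑ i, α i • (i : R)) * e k) ∈ J}
      zero_mem' := ⟨0, by simp, by simp⟩
      add_mem' := by
        rintro _ _ ⟨α, a1, a2⟩ ⟨β, b1, b2⟩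
        refine ⟨α + β, fun i => by simp [a1, b1], ?_⟩
        simpa only [Pi.add_apply, add_smul, sum_add_distrib, add_mul, MulOpposite.op_add]
          using J.add_mem a2 b2
      smul_mem' := by
        rintro c _ ⟨α, a1, a2⟩
        obtain ⟨p, rfl⟩ := hφ c
        refine ⟨p • α, fun i => by simp [a1], ?_⟩
        have := j2 p _ a2
        rw [← mul_assoc, mul_sum] at this
        simp only [Pi.smul_apply, smul_eq_mul, mul_smul]
        exact this }
  have hX : Antitone X := by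
    refine antitone_nat_of_succ_le fun k κ => ?_
    rintro ⟨α, a1, a2⟩
    refine ⟨α, a1, ?_⟩
    have := J.mul_mem_left (MulOpposite.op (e k : R)) a2
    rwa [← MulOpposite.op_mul, mul_assoc, ← A.coe_mul, (he k).2.2.1] at this
  obtain ⟨k, hk⟩ := IsArtinian.monotone_stabilizes (R := K) (M := s → K)
    ⟨fun k => OrderDual.toDual (X k), hX⟩
  refine eventually_atTop.2 ⟨k, fun n hn => ?_⟩
  obtain ⟨α, hα⟩ := (Submodule.mem_span_finset').1 (hs (e (n + 1) - e n))
  have h1 : (fun i => φ (α i)) ∈ X n := ⟨α, fun _ => rfl, by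
    rw [hα, mul_assoc, ← A.coe_mul, sub_mul, (he n).2.2.1, (he n).2.1, sub_self]
    simp⟩
  have h2 : X n = X (n + 1) := ((hk n hn).symm.trans (hk (n + 1) (by omega)) :)
  obtain ⟨β, b1, b2⟩ := h2 ▸ h1
  have h3 : MulOpposite.op ((∑ i, (α i - β i) • (i : R)) * e (n + 1)) ∈ J := by
    rw [sum_mul, op_sum]
    refine J.sum_mem fun i _ => ?_
    rw [Subring.smul_def, smul_eq_mul, mul_assoc]
    exact j1 _ _ (by simp [b1])
  have h4 := J.add_mem h3 b2
  rw [← MulOpposite.op_add, ← add_mul, ← sum_add_distrib] at h4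
  simp only [← add_smul, sub_add_cancel] at h4
  rwa [hα, mul_assoc, ← A.coe_mul, sub_mul, (he _).2.1, (he n).2.2.2, MulOpposite.op_mul] at h4

end Pool.Agent.Lib.MP_57313b_al
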