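import Pool.Agent.Lib.MP_57313b_al.Hull

-- part Pool.Agent.Lib.MP_57313b_al.Core
section

/-!
A uniform module with zero socle over a countable union of subrings.
-/

namespace Pool.Agent.Lib.MP_57313b_al

open Finset

variable {R S : Type} [Ring R] [AddCommGroup S] [Module R S]

/-- elements killed by everything in `B` that kills `s` -/
def Hs (B : Subring R) (s : S) : AddSubgroup S where
  carrier := {t | ∀ c ∈ B, c • s = 0 → c • t = 0}
  add_mem' ha hb c h1 h2 := by rw [smul_add, ha c h1 h2, hb c h1 h2, add_zero]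
  zero_mem' c _ _ := smul_zero c
  neg_mem' ha c h1 h2 := by rw [smul_neg, ha c h1 h2, neg_zero]

/-- `B s` is a simple `B`-module -/
def Sim (B : Subring R) (s : S) : Prop := ∀ a ∈ B, a • s ≠ 0 → ∃ a' ∈ B, a' • a • s = s

/-- `B y` maps onto all coordinates in `J` -/
def Big (B : Subring R) (s : S) (y : ℕ → S) (J : Finset ℕ) : Prop :=
  ∀ j ∈ J, ∃ r ∈ B, r • y j = s ∧ ∀ i ∈ J, i ≠ j → r • y i = 0

/-- coefficients of the generic sequence -/
noncomputable def cc (g : ℕ → R) : ℕ → R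
  | 0 => 1
  | k + 1 => ∑ i : Fin (k + 1), cc g i * g ((k + 1) * (k + 1) + i)
decreasing_by exact i.2

variable {B B' : Subring R} {s h : S} {a : R} {y : ℕ → S} {J : Finset ℕ}

lemma Hs_anti (hB : B ≤ B') (hh : h ∈ Hs B' s) : h ∈ Hs B s := fun c hc => hh c (hB hc)

lemma smul_mem_Hs (h0 : a ∈ B) (ha : a • s ∈ Hs B s) (hh : h ∈ Hs B s) : a • h ∈ Hs B s :=
  fun c h1 h2 => by
    rw [← mul_smul]
    exact hh _ (B.mul_mem h1 h0) (by rw [mul_smul]; exact ha c h1 h2)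

lemma mem_Hs_of_smul (hB : B ≤ B') (hs : Sim B s) (hs' : Sim B' s) (h0 : a ∈ B) (h1 : a • s ≠ 0)
    (ha : a • s ∈ Hs B' s) (hh : h ∈ Hs B s) (hah : a • h ∈ Hs B' s) : h ∈ Hs B' s := by
  obtain ⟨a', a1, a2⟩ := hs a h0 h1
  have e1 := hh (a' * a - 1) (B.sub_mem (B.mul_mem a1 h0) B.one_mem)
    (by rw [sub_smul, mul_smul, a2, one_smul, sub_self])
  rw [sub_smul, one_smul, sub_eq_zero, mul_smul] at e1
  intro c c1 c2
  rw [← e1, ← mul_smul]
  refine hah _ (B'.mul_mem c1 (hB a1)) (by_contra fun h2 => h1 ?_)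
  obtain ⟨q, q1, q2⟩ := hs' _ (B'.mul_mem c1 (hB a1)) h2
  have e2 := ha (q * (c * a') - 1) (B'.sub_mem (B'.mul_mem q1 (B'.mul_mem c1 (hB a1))) B'.one_mem)
    (by rw [sub_smul, mul_smul, q2, one_smul, sub_self])
  rw [sub_smul, one_smul, sub_eq_zero, mul_smul, mul_smul, a2, c2, smul_zero] at e2
  exact e2.symm

lemma Big.mono (hB : B ≤ B') (h : Big B s y J) : Big B' s y J := fun j hj =>
  let ⟨r, r1, r2⟩ := h j hj
  ⟨r, hB r1, r2⟩

lemma Big.insert (hs : Sim B s) (h : Big B s y J) {i : ℕ} {b r : R} (hb : b ∈ B) (e : y i = b • s)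
    (hr : r ∈ B) (h1 : ∀ j ∈ J, r • y j = 0) (h2 : r • y i ≠ 0) : Big B s y (insert i J) := by
  obtain ⟨q, q1, q2⟩ := hs (r * b) (B.mul_mem hr hb) (by rwa [mul_smul, ← e])
  rw [mul_smul, ← e] at q2
  intro j hj
  rcases mem_insert.1 hj with rfl | hj
  · refine ⟨q * r, B.mul_mem q1 hr, by rwa [mul_smul], fun l hl hne => ?_⟩
    rw [mul_smul, h1 l ((mem_insert.1 hl).resolve_left hne), smul_zero]
  · obtain ⟨p, p1, p2, p3⟩ := h j hj
    refine ⟨p - p * b * q * r, B.sub_mem p1 (B.mul_mem (B.mul_mem (B.mul_mem p1 hb) q1) hr), ?_,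
      fun l hl hne => ?_⟩
    · rw [sub_smul, mul_smul, h1 j hj, smul_zero, sub_zero, p2]
    · rcases mem_insert.1 hl with rfl | hl
      · rw [sub_smul, mul_smul, mul_smul, q2, mul_smul, ← e, sub_self]
      · rw [sub_smul, mul_smul, h1 l hl, smul_zero, sub_zero, p3 l hl hne]

lemma Big.onto (h : Big B s y J) (w : ℕ → B) : ∃ r ∈ B, ∀ i ∈ J, r • y i = (w i : R) • s := by
  choose! r r1 r2 r3 using h
  refine ⟨∑ j ∈ J, w j * r j, B.sum_mem fun j hj => B.mul_mem (w j).2 (r1 j hj), fun i hi => ?_⟩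
  rw [sum_smul, sum_eq_single_of_mem i hi, mul_smul, r2 i hi]
  intro j hj hne
  rw [mul_smul, r3 j hj i hi hne.symm, smul_zero]

lemma cc_smul (g : ℕ → R) (a : R) (s : S) {k : ℕ} (hk : 1 ≤ k) :
    a • cc g k • s = ∑ i ∈ range k, (a * cc g i) • g (k * k + i) • s := by
  obtain ⟨k, rfl⟩ : ∃ l, k = l + 1 := ⟨k - 1, by omega⟩
  rw [cc, Fin.sum_univ_eq_sum_range (fun i => cc g i * g ((k + 1) * (k + 1) + i)), sum_smul,
    smul_sum]
  simp only [mul_smul]

/-- the data of the construction -/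
structure Dat (A : ℕ → Subring R) (s : S) (g : ℕ → R) : Prop where
  mono : Monotone A
  ex : ∀ r, ∃ n, r ∈ A n
  ne : s ≠ 0
  gen : ∀ t, ∃ r : R, t = r • s
  sim : ∀ n, Sim (A n) s
  g1 : ∀ n, g n ∈ A (n + 1)
  g2 : ∀ n, g n • s ∈ Hs (A n) s
  g3 : ∀ n, g n • s ∉ Hs (A (n + 1)) s

variable {A : ℕ → Subring R} {g : ℕ → R}

lemma Dat.cc_mem (D : Dat A s g) (i : ℕ) : ∀ k, i < k → cc g i ∈ A (k * k) := by
  induction i using Nat.strong_induction_on with
  | _ i ih =>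
    intro k hk
    rcases i with _ | i
    · rw [cc]
      exact one_mem _
    · rw [cc]
      refine sum_mem fun j _ => mul_mem (ih j j.2 k (j.2.trans hk)) (D.mono ?_ (D.g1 _))
      have := j.2
      nlinarith

lemma Dat.det (D : Dat A s g) {k : ℕ} (hk : 1 ≤ k) (ha : a ∈ A (k * k))
    (h : ∀ i < k, a • cc g i • s = 0) (j : ℕ) : a • cc g j • s = 0 := by
  induction j using Nat.strong_induction_on with
  | _ j ih =>
    by_cases hj : j < k
    · exact h j hj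
    · rw [cc_smul g a s (by omega)]
      refine sum_eq_zero fun i hi => Hs_anti (D.mono (Nat.le_add_right _ i)) (D.g2 _) _
        (mul_mem (D.mono (by nlinarith) ha) (D.cc_mem i j (mem_range.1 hi))) ?_
      rw [mul_smul]
      exact ih i (mem_range.1 hi)

lemma Dat.step (D : Dat A s g) {k : ℕ} (ha : a ∈ A (k * k)) (h1 : J ⊆ range k) (h2 : J.Nonempty)
    (h : Big (A (k * k)) s (fun i => a • cc g i • s) J) : ∃ i < k + 1, i ∉ J ∧
      Big (A ((k + 1) * (k + 1))) s (fun i => a • cc g i • s) (insert i J) := by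
  classical
  have hm : A (k * k) ≤ A ((k + 1) * (k + 1)) := D.mono (by nlinarith)
  by_contra hno
  have c1 : ∀ r ∈ A ((k + 1) * (k + 1)), (∀ j ∈ J, r • a • cc g j • s = 0) →
      ∀ i < k + 1, r • a • cc g i • s = 0 := by
    intro r r1 r2 i hi
    by_contra h3
    exact hno ⟨i, hi, fun h4 => h3 (r2 i h4), (h.mono hm).insert (D.sim _)
      (mul_mem (hm ha) (D.cc_mem i _ hi)) (mul_smul _ _ _).symm r1 r2 h3⟩
  obtain ⟨j, hj⟩ := h2
  have hk := mem_range.1 (h1 hj)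
  obtain ⟨r, r1, r2, r3⟩ := h j hj
  have c2 : ∀ i < k + 1, (r * a * cc g i) • s ∈ Hs (A ((k + 1) * (k + 1))) s := by
    intro i hi c c3 c4
    have := c1 (c * r) (mul_mem c3 (hm r1)) (fun l hl => by
      rw [mul_smul]
      by_cases h5 : l = j
      · rw [h5, r2, c4]
      · rw [r3 l hl h5, smul_zero]) i hi
    simpa only [mul_smul] using this
  have c3 : ∀ i < k, r * a * cc g i ∈ A (k * k) := fun i hi =>
    mul_mem (mul_mem r1 ha) (D.cc_mem i k hi)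
  have hex : ∃ i, i < k ∧ (r * a * cc g i) • s ≠ 0 :=
    ⟨j, hk, by simpa only [mul_smul, r2] using D.ne⟩
  obtain ⟨i1, i2⟩ := Nat.find_spec hex
  have i3 := fun i => Nat.find_min hex (m := i)
  set i0 := Nat.find hex
  have m1 : A (k * k) ≤ A (k * k + i0 + 1) := D.mono (by omega)
  have m2 : A (k * k + i0 + 1) ≤ A ((k + 1) * (k + 1)) := D.mono (by nlinarith)
  refine D.g3 (k * k + i0) (mem_Hs_of_smul m1 (D.sim _) (D.sim _) (c3 i0 i1) i2
    (Hs_anti m2 (c2 i0 (by omega))) (Hs_anti (D.mono (by omega)) (D.g2 _)) ?_)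
  have c4 := Hs_anti m2 (c2 k (by omega))
  rw [mul_smul, cc_smul g _ s (by omega), ← add_sum_erase _ _ (mem_range.2 i1)] at c4
  refine (add_mem_cancel_right (sum_mem fun i hi => ?_)).1 c4
  obtain ⟨h3, h4⟩ := mem_erase.1 hi
  have h4 := mem_range.1 h4
  rcases lt_or_gt_of_ne h3 with h3 | h3
  · rw [Hs_anti (D.mono (Nat.le_add_right _ i)) (D.g2 _) _ (c3 i h4)
      (by_contra fun h5 => i3 i h3 ⟨h4, h5⟩)]
    exact zero_mem _
  · exact smul_mem_Hs (m1 (c3 i h4)) (Hs_anti m2 (c2 i (by omega)))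
      (Hs_anti (D.mono (by omega)) (D.g2 _))

lemma Dat.grow (D : Dat A s g) {k : ℕ} (hk : 1 ≤ k) (ha : a ∈ A (k * k))
    (h : ∃ j, a • cc g j • s ≠ 0) (l : ℕ) : ∃ J ⊆ range (k + l), #J = l + 1 ∧
      Big (A ((k + l) * (k + l))) s (fun i => a • cc g i • s) J := by
  induction l with
  | zero =>
    obtain ⟨i, i1, i2⟩ : ∃ i < k, a • cc g i • s ≠ 0 := by
      by_contra h'
      push Not at h'
      exact h.elim fun j hj => hj (D.det hk ha h' j)
    refine ⟨insert i ∅, by simpa using i1, rfl, Big.insert (D.sim _) (fun _ h => by simp at h)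
      (mul_mem ha (D.cc_mem i k i1)) (mul_smul _ _ _).symm (one_mem _) (by simp) (by simpa using i2)⟩
  | succ l ih =>
    obtain ⟨J, j1, j2, j3⟩ := ih
    obtain ⟨i, i1, i2, i3⟩ := D.step (D.mono (by nlinarith) ha) j1 (card_pos.1 (by omega)) j3
    exact ⟨insert i J, insert_subset (mem_range.2 i1) (j1.trans (range_subset_range.2 (by omega))),
      by rw [card_insert_of_notMem i2, j2], i3⟩

lemma Dat.two (D : Dat A s g) (a b : R) : ∃ k, 1 ≤ k ∧ a ∈ A (k * k) ∧ b ∈ A (k * k) := by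
  obtain ⟨n, hn⟩ := D.ex a
  obtain ⟨m, hm⟩ := D.ex b
  exact ⟨n + m + 1, by omega, D.mono (by nlinarith) hn, D.mono (by nlinarith) hm⟩

lemma Dat.meet (D : Dat A s g) {a b : R} (h : ∃ j, a • cc g j • s ≠ 0)
    (h' : ∃ j, b • cc g j • s ≠ 0) : ∃ r r' : R, (∀ j, r • a • cc g j • s = r' • b • cc g j • s) ∧
      ∃ j, r • a • cc g j • s ≠ 0 := by
  by_contra hno
  push Not at hno
  obtain ⟨k, hk, ha, hb⟩ := D.two a b
  obtain ⟨J, j1, j2, j3⟩ := D.grow hk ha h k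
  obtain ⟨J', k1, k2, k3⟩ := D.grow hk hb h' k
  have hm : A (k * k) ≤ A ((k + k) * (k + k)) := D.mono (by nlinarith)
  set B := A ((k + k) * (k + k)) with hB
  let P : Submodule B S := Submodule.span B {s}
  have : IsSimpleModule B P := by
    refine isSimpleModule_iff_toSpanSingleton_surjective.2
      ⟨⟨⟨s, Submodule.mem_span_singleton_self s⟩, 0, fun h => D.ne (congrArg Subtype.val h)⟩, ?_⟩
    rintro ⟨_, hx⟩ h0 ⟨_, hy⟩
    obtain ⟨p, rfl⟩ := Submodule.mem_span_singleton.1 hx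
    obtain ⟨q, rfl⟩ := Submodule.mem_span_singleton.1 hy
    obtain ⟨p', p1, p2⟩ := D.sim _ p.1 p.2 fun h => h0 (Subtype.ext h)
    refine ⟨q * ⟨p', p1⟩, Subtype.ext ?_⟩
    change ((q : R) * p') • (p : R) • s = (q : R) • s
    rw [mul_smul, p2]
  have hP : ∀ c ∈ B, ∀ I ⊆ range (k + k), ∀ i : I, c • cc g i • s ∈ P := fun c hc I hI i =>
    Submodule.mem_span_singleton.2
      ⟨⟨_, mul_mem hc (D.cc_mem i _ (mem_range.1 (hI i.2)))⟩, mul_smul _ _ _⟩
  let φ : ∀ c ∈ B, ∀ I ⊆ range (k + k), B →ₗ[B] (I → P) := fun c hc I hI =>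
    LinearMap.toSpanSingleton B _ fun i => ⟨_, hP c hc I hI i⟩
  have hφ : ∀ c hc I hI, Big B s (fun i => c • cc g i • s) I →
      Function.Surjective (φ c hc I hI) := by
    intro c hc I hI hb w
    choose v hv using fun i => Submodule.mem_span_singleton.1 (w i).2
    obtain ⟨r, r1, r2⟩ := hb.onto fun i => if h : i ∈ I then v ⟨i, h⟩ else 0
    refine ⟨⟨r, r1⟩, funext fun i => Subtype.ext ((r2 i i.2).trans ?_)⟩
    rw [dif_pos i.2]
    exact hv i
  let F := (φ a (hm ha) _ subset_rfl).coprod (-φ b (hm hb) _ subset_rfl)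
  let G := (φ a (hm ha) J j1).prodMap (φ b (hm hb) J' k1)
  have hFG : LinearMap.ker F ≤ LinearMap.ker G := by
    rintro ⟨r, r'⟩ hr
    have e1 := D.det (a := r * a - r' * b) (k := k + k) (by omega)
      (sub_mem (mul_mem r.2 (hm ha)) (mul_mem r'.2 (hm hb))) fun i hi => by
        rw [sub_smul, mul_smul, mul_smul, sub_eq_add_neg]
        exact congrArg Subtype.val (congrFun (LinearMap.mem_ker.1 hr) ⟨i, mem_range.2 hi⟩)
    simp only [sub_smul, mul_smul, sub_eq_zero] at e1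
    have e2 := hno _ _ e1
    exact Prod.ext (funext fun i => Subtype.ext (e2 i))
      (funext fun i => Subtype.ext ((e1 i).symm.trans (e2 i)))
  have l1 := Module.length_le_of_surjective ((LinearMap.ker F).liftQ G hFG) (by
    rw [← LinearMap.range_eq_top, Submodule.range_liftQ, LinearMap.range_eq_top]
    exact (hφ a (hm ha) J j1 j3).prodMap (hφ b (hm hb) J' k1 k3))
  have l2 := Module.length_le_of_injective ((LinearMap.ker F).liftQ F le_rfl)
    (LinearMap.ker_eq_bot.1 (Submodule.ker_liftQ_eq_bot' _ _ rfl))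
  have l3 := l1.trans l2
  simp only [Module.length_prod, Module.length_pi_of_fintype, Module.length_eq_one, sum_const,
    card_univ, Fintype.card_coe, j2, k2, card_range, nsmul_one] at l3
  norm_cast at l3
  omega

lemma Dat.sim' (D : Dat A s g) (h : a • s ≠ 0) : ∃ a' : R, a' • a • s = s := by
  obtain ⟨n, hn⟩ := D.ex a
  obtain ⟨a', -, h'⟩ := D.sim n a hn h
  exact ⟨a', h'⟩

theorem Dat.not_star (D : Dat A s g) : ¬ OneType R := by
  intro h
  have u1 : Unif R S := by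
    intro x y hx hy
    obtain ⟨a, rfl⟩ := D.gen x
    obtain ⟨b, rfl⟩ := D.gen y
    obtain ⟨a', ha⟩ := D.sim' hx
    obtain ⟨b', hb⟩ := D.sim' hy
    exact ⟨a', b', ha.trans hb.symm, ha.symm ▸ D.ne⟩
  have u2 : Unif R (Submodule.span R {fun i => cc g i • s}) := by
    rintro ⟨_, hx⟩ ⟨_, hy⟩ h1 h2
    obtain ⟨a, rfl⟩ := Submodule.mem_span_singleton.1 hx
    obtain ⟨b, rfl⟩ := Submodule.mem_span_singleton.1 hy
    obtain ⟨r, r', e1, j, e2⟩ := D.meet (a := a) (b := b)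
      (Function.ne_iff.1 fun h => h1 (Subtype.ext h)) (Function.ne_iff.1 fun h => h2 (Subtype.ext h))
    exact ⟨r, r', Subtype.ext (funext e1), fun h => e2 (congrFun (congrArg Subtype.val h) j)⟩
  obtain ⟨a, b, h1, h2⟩ := h _ _ u2 u1 ⟨_, Submodule.mem_span_singleton_self _⟩ s (fun h => by
    have := congrFun (congrArg Subtype.val h) 0
    simp only [cc, one_smul] at this
    exact D.ne this) D.ne
  have h3 : ∀ c : R, (∀ j, c • a • cc g j • s = 0) ↔ c • b • s = 0 := fun c =>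
    Iff.trans ⟨fun h => Subtype.ext (funext h), fun h => congrFun (congrArg Subtype.val h)⟩ (h2 c)
  obtain ⟨k, hk, ha, -⟩ := D.two a a
  obtain ⟨J, -, j2, j3⟩ := D.grow hk ha (Function.ne_iff.1 fun h => h1 (Subtype.ext h)) 1
  obtain ⟨i, j, hij, rfl⟩ := card_eq_two.1 j2
  obtain ⟨r, -, r1, r2⟩ := j3 i (by simp)
  obtain ⟨r', -, r3, -⟩ := j3 j (by simp)
  obtain ⟨q, hq⟩ := D.sim' (a := r * b) fun h => D.ne (by
    rw [← r1]
    exact (h3 r).2 (by rwa [mul_smul] at h) i)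
  have h4 := (h3 (b * q * r - 1)).2
    (by rw [sub_smul, one_smul, mul_smul, mul_smul, ← mul_smul r, hq, sub_self]) j
  have r2 := r2 j (by simp) hij.symm
  simp only at r2 r3
  rw [sub_smul, mul_smul, r2, smul_zero, one_smul, zero_sub, neg_eq_zero] at h4
  rw [h4, smul_zero] at r3
  exact D.ne r3.symm

end Pool.Agent.Lib.MP_57313b_al
end

-- part Pool.Agent.Lib.MP_57313b_al.Rigid
section

/-!
Maximal one-sided ideals over a countable union of regular subrings.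
-/

namespace Pool.Agent.Lib.MP_57313b_al

variable {R : Type} [Ring R] {A : ℕ → Subring R} {B : Subring R}

/-- the class of `1` -/
def pt (M : Ideal R) : R ⧸ M := Submodule.Quotient.mk 1

lemma smul_pt {M : Ideal R} {a : R} : a • pt M = 0 ↔ a ∈ M := by
  rw [pt, ← Submodule.Quotient.mk_smul, Submodule.Quotient.mk_eq_zero, smul_eq_mul, mul_one]

lemma smul_smul_pt {M : Ideal R} {a b : R} : a • b • pt M = pt M ↔ a * b - 1 ∈ M := by
  rw [← smul_pt, sub_smul, one_smul, sub_eq_zero, mul_smul]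

lemma gen_pt {M : Ideal R} (t : R ⧸ M) : ∃ r : R, t = r • pt M := by
  obtain ⟨r, rfl⟩ := Submodule.Quotient.mk_surjective M t
  exact ⟨r, by rw [pt, ← Submodule.Quotient.mk_smul, smul_eq_mul, mul_one]⟩

lemma pt_ne {M : Ideal R} (h : M ≠ ⊤) : pt M ≠ 0 := fun h' =>
  h ((Ideal.eq_top_iff_one M).2 (smul_pt.1 (by rw [h', smul_zero])))

lemma coatom_inv {M : Ideal R} (h : IsCoatom M) {a : R} (ha : a ∉ M) : ∃ b, b * a - 1 ∈ M := by
  have := h.2 (M ⊔ Ideal.span {a}) (left_lt_sup.2 fun h' => ha (h' (Ideal.mem_span_singleton_self a)))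
  obtain ⟨m, hm, _, hz, e⟩ := Submodule.mem_sup.1 ((Ideal.eq_top_iff_one _).1 this)
  obtain ⟨b, rfl⟩ := Submodule.mem_span_singleton.1 hz
  exact ⟨b, by rw [← e, smul_eq_mul, sub_add_cancel_right]; exact M.neg_mem hm⟩

lemma coatom_of_inv {M : Ideal R} (h : M ≠ ⊤) (h' : ∀ a ∉ M, ∃ b, b * a - 1 ∈ M) : IsCoatom M := by
  refine ⟨h, fun N hN => (Ideal.eq_top_iff_one N).2 ?_⟩
  obtain ⟨a, a1, a2⟩ := SetLike.exists_of_lt hN
  obtain ⟨b, hb⟩ := h' a a2
  simpa using N.sub_mem (N.mul_mem_left b a1) (hN.le hb)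

lemma unif_pt {M : Ideal R} (h : IsCoatom M) : Unif R (R ⧸ M) := by
  intro x y hx hy
  obtain ⟨a, rfl⟩ := gen_pt x
  obtain ⟨b, rfl⟩ := gen_pt y
  obtain ⟨a', ha⟩ := coatom_inv h (mt smul_pt.2 hx)
  obtain ⟨b', hb⟩ := coatom_inv h (mt smul_pt.2 hy)
  rw [← smul_smul_pt] at ha hb
  exact ⟨a', b', ha.trans hb.symm, ha.symm ▸ pt_ne h.1⟩

lemma realize (hS : OneType R) {M M' : Ideal R} (h : IsCoatom M) (h' : IsCoatom M') :
    ∃ r : R, ∀ c : R, c • r • pt M = 0 ↔ c ∈ M' := by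
  obtain ⟨r, r', h1, h2⟩ := hS _ _ (unif_pt h') (unif_pt h) _ _ (pt_ne h'.1) (pt_ne h.1)
  obtain ⟨q, hq⟩ := coatom_inv h' (mt smul_pt.2 h1)
  refine ⟨q * r', fun c => ?_⟩
  rw [mul_smul, ← mul_smul c, ← h2, mul_smul, smul_smul_pt.2 hq, smul_pt]

/-- `M` meets `B` in a maximal one-sided ideal -/
def Mx (B : Subring R) (M : Ideal R) : Prop := ∀ a ∈ B, a ∉ M → ∃ a' ∈ B, a' * a - 1 ∈ M

lemma Mx.sim {M : Ideal R} (h : Mx B M) : Sim B (pt M) := fun a ha h' =>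
  let ⟨a', h1, h2⟩ := h a ha (mt smul_pt.2 h')
  ⟨a', h1, smul_smul_pt.2 h2⟩

lemma coatom_of_Mx (ex : ∀ r, ∃ n, r ∈ A n) {M : Ideal R} (h0 : M ≠ ⊤) (h : ∀ n, Mx (A n) M) :
    IsCoatom M := coatom_of_inv h0 fun a ha =>
  let ⟨n, hn⟩ := ex a
  let ⟨b, _, hb⟩ := h n a hn ha
  ⟨b, hb⟩

theorem unique_over (hS : OneType R) (mono : Monotone A) (ex : ∀ r, ∃ n, r ∈ A n) {M : Ideal R}
    (h0 : M ≠ ⊤) (h : ∀ n, Mx (A n) M) :
    ∃ n, ∀ M' : Ideal R, IsCoatom M' → (∀ a ∈ A n, a ∈ M → a ∈ M') → M' = M := by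
  by_contra hno
  push Not at hno
  have hM := coatom_of_Mx ex h0 h
  have key : ∀ n, ∃ m g, n < m ∧ g ∈ A m ∧ g • pt M ∈ Hs (A n) (pt M) ∧
      g • pt M ∉ Hs (A m) (pt M) := by
    intro n
    obtain ⟨M', m1, m2, m3⟩ := hno n
    obtain ⟨g, hg⟩ := realize hS hM m1
    obtain ⟨c, c1, c2⟩ : ∃ c ∈ M, c ∉ M' := by
      by_contra h'
      push Not at h'
      exact m3 ((hM.le_iff.1 h').resolve_left m1.1)
    obtain ⟨i, hi⟩ := ex g
    obtain ⟨j, hj⟩ := ex c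
    exact ⟨n + i + j + 1, g, by omega, mono (by omega) hi,
      fun a a1 a2 => (hg a).2 (m2 a a1 (smul_pt.1 a2)),
      fun h' => c2 ((hg c).1 (h' c (mono (by omega) hj) (smul_pt.2 c1)))⟩
  choose m g k1 k2 k3 k4 using key
  have hφ : StrictMono fun n => m^[n] 0 := strictMono_nat_of_lt_succ fun n => by
    rw [Function.iterate_succ_apply']
    exact k1 _
  refine Dat.not_star (A := fun n => A (m^[n] 0)) (s := pt M) (g := fun n => g (m^[n] 0))
    ⟨mono.comp hφ.monotone, fun r => ?_, pt_ne h0, gen_pt, fun n => (h _).sim, fun n => ?_,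
      fun n => k3 _, fun n => ?_⟩ hS
  · obtain ⟨n, hn⟩ := ex r
    exact ⟨n, mono (hφ.id_le n) hn⟩
  · rw [Function.iterate_succ_apply']
    exact k2 _
  · rw [Function.iterate_succ_apply']
    exact k4 _

/-- regular subring -/
def Reg (B : Subring R) : Prop := ∀ a ∈ B, ∃ x ∈ B, a * x * a = a

lemma Reg.comb (h : Reg B) {e a : R} (he : e ∈ B) (ha : a ∈ B) :
    ∃ p ∈ B, ∃ q ∈ B, e * (p * a + q * e) = e ∧ a * (p * a + q * e) = a := by
  obtain ⟨x, x1, x2⟩ := h e he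
  have h1 : 1 - x * e ∈ B := sub_mem (one_mem _) (mul_mem x1 he)
  obtain ⟨y, y1, y2⟩ := h (a * (1 - x * e)) (mul_mem ha h1)
  have e1 : e * (1 - x * e) = 0 := by rw [mul_sub, mul_one, ← mul_assoc, x2, sub_self]
  have e2 : (1 - x * e) * y * a + (x - (1 - x * e) * y * a * x) * e =
      x * e + (1 - x * e) * (y * (a * (1 - x * e))) := by noncomm_ring
  refine ⟨(1 - x * e) * y, mul_mem h1 y1, x - (1 - x * e) * y * a * x,
    sub_mem x1 (mul_mem (mul_mem (mul_mem h1 y1) ha) x1), ?_, ?_⟩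
  · rw [e2, mul_add, ← mul_assoc, x2, ← mul_assoc, e1, zero_mul, add_zero]
  · rw [e2, mul_add, ← mul_assoc a (1 - x * e), ← mul_assoc _ y, y2]
    noncomm_ring

lemma Reg.extend (h : Reg B) {I : Ideal R} (h0 : (1 : R) ∉ I)
    (h1 : ∀ z ∈ I, ∃ e ∈ B, e ∈ I ∧ z * e = z) : ∃ J, I ≤ J ∧ ((1 : R) ∉ J ∧
      ∀ z ∈ J, ∃ e ∈ B, e ∈ J ∧ z * e = z) ∧ Mx B J := by
  obtain ⟨J, j1, hJ⟩ := zorn_le_nonempty₀
    {J : Ideal R | (1 : R) ∉ J ∧ ∀ z ∈ J, ∃ e ∈ B, e ∈ J ∧ z * e = z}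
    (fun c hc hch y hy => ⟨sSup c, ⟨fun he => by
      obtain ⟨z, hz, he⟩ := (Submodule.mem_sSup_of_directed ⟨y, hy⟩ hch.directedOn).1 he
      exact (hc hz).1 he, fun e he => by
      obtain ⟨z, hz, he⟩ := (Submodule.mem_sSup_of_directed ⟨y, hy⟩ hch.directedOn).1 he
      obtain ⟨f, f1, f2, f3⟩ := (hc hz).2 e he
      exact ⟨f, f1, le_sSup hz f2, f3⟩⟩, fun _ h => le_sSup h⟩) I ⟨h0, h1⟩
  refine ⟨J, j1, hJ.prop, fun a a1 a2 => ?_⟩
  have key : ∀ z ∈ J ⊔ Ideal.span {a}, ∃ p ∈ B, ∃ e ∈ B, e ∈ J ∧ z * (p * a + e) = z := by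
    intro z hz
    obtain ⟨m, hm, _, hw, rfl⟩ := Submodule.mem_sup.1 hz
    obtain ⟨b, rfl⟩ := Submodule.mem_span_singleton.1 hw
    obtain ⟨e, e1, e2, e3⟩ := hJ.prop.2 m hm
    obtain ⟨p, p1, q, q1, e4, e5⟩ := h.comb e1 a1
    refine ⟨p, p1, q * e, mul_mem q1 e1, J.mul_mem_left q e2, ?_⟩
    rw [add_mul, smul_eq_mul, mul_assoc b, e5, ← e3, mul_assoc m, e4]
  by_cases h2 : (1 : R) ∈ J ⊔ Ideal.span {a}
  · obtain ⟨p, p1, e, -, e1, e2⟩ := key 1 h2
    refine ⟨p, p1, ?_⟩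
    rw [← e2, one_mul, sub_add_cancel_left]
    exact J.neg_mem e1
  · refine absurd (hJ.le_of_ge ⟨h2, fun z hz => ?_⟩ le_sup_left
      (Submodule.mem_sup_right (Ideal.mem_span_singleton_self a))) a2
    obtain ⟨p, p1, e, e1, e2, e3⟩ := key z hz
    exact ⟨_, add_mem (mul_mem p1 a1) e1, add_mem (Submodule.mem_sup_right
      (Ideal.mul_mem_left _ p (Ideal.mem_span_singleton_self a))) (Submodule.mem_sup_left e2), e3⟩

theorem exists_chain [Nontrivial R] (mono : Monotone A) (h : ∀ n, Reg (A n)) :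
    ∃ M : Ideal R, M ≠ ⊤ ∧ ∀ n, Mx (A n) M := by
  let T := fun n => {I : Ideal R // (1 : R) ∉ I ∧ ∀ z ∈ I, ∃ e ∈ A n, e ∈ I ∧ z * e = z}
  have step : ∀ n (I : T n), ∃ J : T (n + 1), I.1 ≤ J.1 ∧ Mx (A n) J.1 := by
    intro n I
    obtain ⟨J, j1, j2, j3⟩ := (h n).extend I.2.1 I.2.2
    refine ⟨⟨J, j2.1, fun z hz => ?_⟩, j1, j3⟩
    obtain ⟨e, e1, e2⟩ := j2.2 z hz
    exact ⟨e, mono (Nat.le_succ n) e1, e2⟩
  choose f f1 f2 using step
  let I : ∀ n, T n := fun n => Nat.rec ⟨⊥, by simp, fun z hz => ⟨0, zero_mem _, zero_mem _, by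
    rw [mul_zero, (Submodule.mem_bot R).1 hz]⟩⟩ f n
  have hI : Monotone fun n => (I n).1 := monotone_nat_of_le_succ fun n => f1 n (I n)
  refine ⟨⨆ n, (I n).1, fun h' => ?_, fun n a a1 a2 => ?_⟩
  · obtain ⟨n, hn⟩ := (Submodule.mem_iSup_of_directed _ hI.directed_le).1
      ((Ideal.eq_top_iff_one _).1 h')
    exact (I n).2.1 hn
  · obtain ⟨b, b1, b2⟩ := f2 n (I n) a a1 fun h' => a2 (le_iSup (fun n => (I n).1) (n + 1) h')
    exact ⟨b, b1, le_iSup (fun n => (I n).1) (n + 1) b2⟩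

theorem rigid (hS : OneType R) (mono : Monotone A) (ex : ∀ r, ∃ n, r ∈ A n) (h : ∀ n, Reg (A n))
    {M : Ideal R} (hM : IsCoatom M) : ∃ n, (∀ m, n ≤ m → Mx (A m) M) ∧
      ∀ M' : Ideal R, IsCoatom M' → (∀ a ∈ A n, a ∈ M → a ∈ M') → M' = M := by
  have : Nontrivial R := by
    by_contra h'
    rw [not_nontrivial_iff_subsingleton] at h'
    exact hM.1 (Subsingleton.elim _ _)
  obtain ⟨M0, m1, m2⟩ := exists_chain mono h
  obtain ⟨r, hr⟩ := realize hS (coatom_of_Mx ex m1 m2) hM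
  obtain ⟨k, hk⟩ := ex r
  have h1 : ∀ m, k ≤ m → Mx (A m) M := by
    intro m hm a a1 a2
    obtain ⟨b, b1, b2⟩ := (m2 m).sim (a * r) (mul_mem a1 (mono hm hk))
      (by rw [mul_smul]; exact mt (hr a).1 a2)
    refine ⟨r * b, mul_mem (mono hm hk) b1, (hr _).1 ?_⟩
    rw [sub_smul, mul_smul, mul_smul, ← mul_smul a, b2, one_smul, sub_self]
  obtain ⟨n, hn⟩ := unique_over hS (A := fun n => A (n + k)) (fun _ _ h => mono (by omega))
    (fun r => (ex r).imp fun n hn => mono (by omega) hn) hM.1 fun n => h1 _ (by omega)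
  exact ⟨n + k, fun m hm => h1 m (by omega), hn⟩

end Pool.Agent.Lib.MP_57313b_al
end
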