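import Pool.Agent.Lib.MP_57313b_al.Rigid

open Pool.Agent.Lib.MP_57313b_al

/-- If all indecomposable injective right modules over `R` are isomorphic and `R` is the union of an
increasing sequence of von Neumann regular subrings `A n`, then every maximal right ideal `M` of `R`
meets some `A n` in a maximal right ideal of `A n` that lies in no other maximal right ideal
of `R`. -/
theorem Pool.Agent.Lib.MP_57313b_al.rigidity_retired :
    ∀ (R : Type) [Ring R] (A : ℕ → Subring R),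
      Monotone A → (∀ r : R, ∃ n, r ∈ A n) → (∀ (n : ℕ) (a : A n), ∃ x : A n, a * x * a = a) →
      (∀ (M : Type) [AddCommGroup M] [Module Rᵐᵒᵖ M] (N : Type) [AddCommGroup N] [Module Rᵐᵒᵖ N],
        (Module.Injective Rᵐᵒᵖ M ∧ Nontrivial M ∧
          ∀ X Y : Submodule Rᵐᵒᵖ M, IsCompl X Y → X = ⊥ ∨ X = ⊤) →
        (Module.Injective Rᵐᵒᵖ N ∧ Nontrivial N ∧
          ∀ X Y : Submodule Rᵐᵒᵖ N, IsCompl X Y → X = ⊥ ∨ X = ⊤) →
        Nonempty (M ≃ₗ[Rᵐᵒᵖ] N)) →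
      ∀ M : Ideal Rᵐᵒᵖ, M.IsMaximal → ∃ n : ℕ,
        (M.comap (RingHom.op (A n).subtype)).IsMaximal ∧
        ∀ M' : Ideal Rᵐᵒᵖ, M'.IsMaximal →
          M.comap (RingHom.op (A n).subtype) ≤ M'.comap (RingHom.op (A n).subtype) → M' = M := by
  intro R _ A h3 h4 h5 h6 M hM
  have hS : OneType Rᵐᵒᵖ := star_of_not_two fun ⟨M, _, _, N, _, _, a, b, c⟩ => (h6 M N a b).elim c.false
  obtain ⟨n, h1, h2⟩ := rigid (A := fun n => (A n).op) hS (fun _ _ h _ ha => h3 h ha)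
    (fun r => h4 r.unop) (fun n a ha =>
      let ⟨x, hx⟩ := h5 n ⟨a.unop, ha⟩
      ⟨MulOpposite.op x.1, x.2, MulOpposite.unop_injective (by
        simpa [mul_assoc] using congrArg Subtype.val hx)⟩) hM.out
  refine ⟨n, ⟨coatom_of_inv (Ideal.comap_ne_top _ hM.out.1) fun a ha => ?_⟩, fun M' m1 m2 =>
    h2 M' m1.out fun a a1 a2 => m2 (x := MulOpposite.op ⟨a.unop, a1⟩) a2⟩
  obtain ⟨b, b1, b2⟩ := h1 n le_rfl _ a.unop.2 ha
  exact ⟨MulOpposite.op ⟨b.unop, b1⟩, b2⟩
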