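import Pool.Agent.Lib.MP_57313b_al.Hull

/-! Indecomposable injective modules are small. -/

namespace Pool.Agent.Lib.MP_57313b_al

universe u

theorem exists_small {R : Type} [Ring R] (N : Type u) [AddCommGroup N] [Module R N]
    (hN : Module.Injective R N) (h0 : Nontrivial N)
    (hi : ∀ A B : Submodule R N, IsCompl A B → A = ⊥ ∨ A = ⊤) :
    ∃ (E : Type) (_ : AddCommGroup E) (_ : Module R E), Module.Injective R E ∧ Nontrivial E ∧
      (∀ A B : Submodule R E, IsCompl A B → A = ⊥ ∨ A = ⊤) ∧ Nonempty (N ≃ₗ[R] E) := by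
  obtain ⟨x, hx⟩ := exists_ne (0 : N)
  let φ := LinearMap.toSpanSingleton R N x
  let g := (LinearMap.ker φ).liftQ φ le_rfl
  have hg : Function.Injective g := LinearMap.ker_eq_bot.1 (Submodule.ker_liftQ_eq_bot _ _ _ le_rfl)
  obtain ⟨E, _, _, f, hE, hf, he⟩ := exists_hull R (R ⧸ LinearMap.ker φ)
  obtain ⟨h, hh⟩ := Module.Injective.extension_property R N _ E f hf g
  have h1 : Function.Injective h := (injective_iff_map_eq_zero h).2 fun e k => by_contra fun n => by
    obtain ⟨r, v, e1, e2⟩ := he e n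
    refine e2 (hg ?_)
    rw [← hh, LinearMap.comp_apply, ← e1, map_smul, k, smul_zero, map_zero]
  obtain ⟨p, hp⟩ := Module.Injective.extension_property R E E N h h1 LinearMap.id
  have h2 : LinearMap.range h = ⊤ := (hi _ (LinearMap.ker p) ⟨Submodule.disjoint_def.2 (by
      rintro _ ⟨e, rfl⟩ k
      rw [show e = 0 from (LinearMap.congr_fun hp e).symm.trans k, map_zero]),
    codisjoint_iff.2 (Submodule.eq_top_iff'.2 fun y => Submodule.mem_sup.2
      ⟨h (p y), LinearMap.mem_range_self h _, y - h (p y), by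
        rw [LinearMap.mem_ker, map_sub, sub_eq_zero]
        exact (LinearMap.congr_fun hp _).symm, by simp⟩)⟩).resolve_left fun k => hx (by
    have := LinearMap.congr_fun hh (Submodule.Quotient.mk 1)
    rw [LinearMap.range_eq_bot.1 k] at this
    simpa [g, φ] using this.symm)
  let e := LinearEquiv.ofBijective h ⟨h1, LinearMap.range_eq_top.1 h2⟩
  let o := Submodule.orderIsoMapComap e
  exact ⟨E, _, _, hE, e.toEquiv.nontrivial, fun A B k => (hi _ _ (o.isCompl k)).imp
    (fun a => o.injective (a.trans o.map_bot.symm)) fun a => o.injective (a.trans o.map_top.symm),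
    ⟨e.symm⟩⟩

end Pool.Agent.Lib.MP_57313b_al
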